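import Pool.Agent.H675.DCD.Forward

/-!
# From a run to a decomposition
-/

namespace Pool.Agent.H675.DCD

open Equiv

/-- Different colours on the first `k` wires, and on the last `k` wires. -/
def Inj2 (k : ℕ) (c : ℕ → Fin k) : Prop :=
  (∀ p q, p < k → q < k → c p = c q → p = q) ∧
    ∀ p q, k ≤ p → p < 2 * k → k ≤ q → q < 2 * k → c p = c q → p = q

theorem Inj2.comp_swap {k : ℕ} {c : ℕ → Fin k} (h : Inj2 k c) {i : ℕ} (hi : i + 1 ≠ k)
    (hi2 : i + 1 < 2 * k) : Inj2 k (c ∘ swap i (i + 1)) := by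
  have key : ∀ p, (p < k → swap i (i + 1) p < k) ∧
      (k ≤ p → p < 2 * k → k ≤ swap i (i + 1) p ∧ swap i (i + 1) p < 2 * k) := by
    intro p
    by_cases h1 : p = i
    · rw [h1, swap_apply_left]
      omega
    · by_cases h2 : p = i + 1
      · rw [h2, swap_apply_right]
        omega
      · rw [swap_apply_of_ne_of_ne h1 h2]
        omega
  constructor
  · intro p q hp hq he
    exact (swap i (i + 1)).injective (h.1 _ _ ((key p).1 hp) ((key q).1 hq) he)
  · intro p q hp hp' hq hq' he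
    exact (swap i (i + 1)).injective (h.2 _ _ ((key p).2 hp hp').1 ((key p).2 hp hp').2
      ((key q).2 hq hq').1 ((key q).2 hq hq').2 he)

theorem Inj2.surjD {k : ℕ} {c : ℕ → Fin k} (h : Inj2 k c) (x : Fin k) : ∃ j < k, c j = x := by
  have hinj : Function.Injective (fun j : Fin k => c j) := fun a b hab =>
    Fin.ext (h.1 a b a.2 b.2 hab)
  obtain ⟨j, hj⟩ := Finite.surjective_of_injective hinj x
  exact ⟨j, j.2, hj⟩

theorem Inj2.surjU {k : ℕ} {c : ℕ → Fin k} (h : Inj2 k c) (x : Fin k) :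
    ∃ j, k ≤ j ∧ j < 2 * k ∧ c j = x := by
  have hinj : Function.Injective (fun j : Fin k => c (k + j)) := fun a b hab => by
    have := h.2 (k + a) (k + b) (by omega) (by omega) (by omega) (by omega) hab
    exact Fin.ext (by omega)
  obtain ⟨j, hj⟩ := Finite.surjective_of_injective hinj x
  exact ⟨k + j, by omega, by omega, hj⟩

/-- What happens in a row. -/
structure RowOK (k : ℕ) (o : Bool × ℕ) (F F' : ℕ → Fin k) : Prop where
  i1 : Inj2 k F
  i2 : Inj2 k F'
  lt : o.2 + 1 < 2 * k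
  cr : o.1 = true → o.2 + 1 ≠ k ∧ F' = F ∘ swap o.2 (o.2 + 1)
  tch : o.1 = false → o.2 + 1 = k → F' = F ∧ F o.2 ≠ F (o.2 + 1)
  me : o.1 = false → o.2 + 1 ≠ k → (F' = F ∨ F' = F ∘ swap o.2 (o.2 + 1))

theorem rowOK_of_step {k : ℕ} {o : Bool × ℕ} {F F' : ℕ → Fin k} (h : Step k o F F')
    (hF : Inj2 k F) (hlt : o.2 + 1 < 2 * k) (hne : o.1 = true → o.2 + 1 ≠ k) :
    RowOK k o F F' := by
  unfold Step at h
  cases ho : o.1
  · rw [ho] at h
    simp only [Bool.false_eq_true, if_false] at h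
    by_cases hk : o.2 + 1 = k
    · rw [if_pos hk] at h
      refine ⟨hF, ?_, hlt, by simp [ho], fun _ _ => h, fun _ h' => absurd hk h'⟩
      rw [h.1]; exact hF
    · rw [if_neg hk] at h
      refine ⟨hF, ?_, hlt, by simp [ho], fun _ h' => absurd h' hk, fun _ _ => h⟩
      rcases h with rfl | rfl
      · exact hF
      · exact hF.comp_swap hk hlt
  · rw [ho] at h
    simp only [if_true] at h
    have hk := hne ho
    refine ⟨hF, ?_, hlt, fun _ => ⟨hk, h⟩, by simp [ho], by simp [ho]⟩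
    rw [h]
    exact hF.comp_swap hk hlt

section Bwd

variable {k : ℕ} {w : List (Bool × ℕ)} (f : ℕ → ℕ → Fin k)

/-- The colours of the arcs. -/
def colA (k : ℕ) (w : List (Bool × ℕ)) (f : ℕ → ℕ → Fin k) : Arc → Fin k :=
  Sum.elim (fun x => f x.1 x.2)
    (fun y => if y.2 = decide ((op w y.1).2 < k) then f y.1 (op w y.1).2
      else f y.1 ((op w y.1).2 + 1))

/-- The ranks of the arcs. -/
def rkA (k : ℕ) (w : List (Bool × ℕ)) : Arc → ℕ :=
  Sum.elim (fun x => if x.2 < k then 6 * w.length + 6 - 3 * x.1 else 3 * x.1 + 3)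
    (fun y => if (op w y.1).2 < k then 6 * w.length + 4 - 3 * y.1 else 3 * y.1 + 5)

variable (hv : Valid k w) (hf : ∀ r < w.length, RowOK k (op w r) (f r) (f (r + 1)))
  (h0 : Inj2 k (f 0)) (hT : Inj2 k (f w.length))

theorem colA_inl (t j : ℕ) : colA k w f (Sum.inl (t, j)) = f t j := rfl

theorem colA_g (r : ℕ) : colA k w f (Sum.inr (r, true)) =
    if (op w r).2 < k then f r (op w r).2 else f r ((op w r).2 + 1) := by
  simp [colA]

theorem colA_h (r : ℕ) : colA k w f (Sum.inr (r, false)) =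
    if (op w r).2 < k then f r ((op w r).2 + 1) else f r (op w r).2 := by
  simp only [colA, Sum.elim_inr]
  by_cases h : (op w r).2 < k
  · simp [h]
  · simp [h]

include hv hf

/-- the interior vertices: arcs with the same tail -/
theorem tl_inj_row {a b : Arc} (ha : a ∈ arcs k w) (hb : b ∈ arcs k w) {r j : ℕ}
    (hr : r < w.length) (hj : j < 2 * k) (h1 : (ends k w a).1 = vx k w (r + 1) j)
    (h2 : (ends k w b).1 = vx k w (r + 1) j) (hc : colA k w f a = colA k w f b) : a = b := by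
  have R := hf r hr
  have hlt := R.lt
  -- a first wire and a last wire
  have DU : ∀ j1 j2, j1 < k → k ≤ j2 → j2 < 2 * k → Same w r j1 j → Same w r j2 j →
      f (r + 1) j1 ≠ f r j2 := by
    intro j1 j2 g1 g2 g2' s1 s2 he
    have : (op w r).1 = false ∧ j1 = (op w r).2 ∧ j2 = (op w r).2 + 1 := by
      rcases s1 with s1 | ⟨e1, s1 | s1⟩ <;> rcases s2 with s2 | ⟨e2, s2 | s2⟩ <;>
        first | omega | exact ⟨e1, by omega, by omega⟩ | exact ⟨e2, by omega, by omega⟩
    obtain ⟨e, rfl, rfl⟩ := this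
    obtain ⟨t1, t2⟩ := R.tch e (by omega)
    rw [t1] at he
    exact t2 he
  have crD : (op w r).1 = true → ∀ j', Same w r j' j → j' = j := by
    rintro e j' (h | ⟨h, -⟩)
    · exact h
    · rw [e] at h; simp at h
  have DG : ∀ j1, j1 < k → Same w r j1 j → (op w r).1 = true → j = (op w r).2 →
      f (r + 1) j1 ≠ colA k w f (Sum.inr (r, true)) := by
    intro j1 g1 s1 e1 e2 he
    obtain rfl := crD e1 j1 s1
    obtain ⟨c1, c2⟩ := R.cr e1
    rw [colA_g, if_pos (by omega), c2, e2, Function.comp_apply, swap_apply_left] at he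
    have := R.i1.1 _ _ (by omega) (by omega) he
    omega
  have DH : ∀ j1, j1 < k → Same w r j1 j → (op w r).1 = true → j = (op w r).2 + 1 →
      f (r + 1) j1 ≠ colA k w f (Sum.inr (r, false)) := by
    intro j1 g1 s1 e1 e2 he
    obtain rfl := crD e1 j1 s1
    obtain ⟨c1, c2⟩ := R.cr e1
    rw [colA_h, if_pos (by omega), c2, e2, Function.comp_apply, swap_apply_right] at he
    have := R.i1.1 _ _ (by omega) (by omega) he
    omega
  have UG : ∀ j1, k ≤ j1 → j1 < 2 * k → Same w r j1 j → (op w r).1 = true → j = (op w r).2 →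
      f r j1 ≠ colA k w f (Sum.inr (r, true)) := by
    intro j1 g1 g1' s1 e1 e2 he
    obtain rfl := crD e1 j1 s1
    rw [colA_g, if_neg (by omega), e2] at he
    have := R.i1.2 _ _ (by omega) (by omega) (by omega) (by omega) he
    omega
  have UH : ∀ j1, k ≤ j1 → j1 < 2 * k → Same w r j1 j → (op w r).1 = true →
      j = (op w r).2 + 1 → f r j1 ≠ colA k w f (Sum.inr (r, false)) := by
    intro j1 g1 g1' s1 e1 e2 he
    obtain rfl := crD e1 j1 s1
    obtain ⟨c1, c2⟩ := R.cr e1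
    rw [colA_h, if_neg (by omega), e2] at he
    have := R.i1.2 _ _ (by omega) (by omega) (by omega) (by omega) he
    omega
  rcases tail_cases hv ha hr hj h1 with ⟨j1, a1, rfl, a2⟩ | ⟨j1, a1, a1', rfl, a2⟩ |
    ⟨a1, rfl, a2⟩ | ⟨a1, rfl, a2⟩ <;>
  rcases tail_cases hv hb hr hj h2 with ⟨j2, b1, rfl, b2⟩ | ⟨j2, b1, b1', rfl, b2⟩ |
    ⟨b1, rfl, b2⟩ | ⟨b1, rfl, b2⟩
  · rw [R.i2.1 _ _ a1 b1 hc]
  · exact absurd hc (DU _ _ a1 b1 b1' a2 b2)
  · exact absurd hc (DG _ a1 a2 b1 b2)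
  · exact absurd hc (DH _ a1 a2 b1 b2)
  · exact absurd hc.symm (DU _ _ b1 a1 a1' b2 a2)
  · rw [R.i1.2 _ _ a1 a1' b1 b1' hc]
  · exact absurd hc (UG _ a1 a1' a2 b1 b2)
  · exact absurd hc (UH _ a1 a1' a2 b1 b2)
  · exact absurd hc.symm (DG _ b1 b2 a1 a2)
  · exact absurd hc.symm (UG _ b1 b1' b2 a1 a2)
  · rfl
  · omega
  · exact absurd hc.symm (DH _ b1 b2 a1 a2)
  · exact absurd hc.symm (UH _ b1 b1' b2 a1 a2)
  · omega
  · rfl

/-- the interior vertices: arcs with the same head -/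
theorem hd_inj_row {a b : Arc} (ha : a ∈ arcs k w) (hb : b ∈ arcs k w) {r j : ℕ}
    (hr : r < w.length) (hj : j < 2 * k) (h1 : (ends k w a).2 = vx k w (r + 1) j)
    (h2 : (ends k w b).2 = vx k w (r + 1) j) (hc : colA k w f a = colA k w f b) : a = b := by
  have R := hf r hr
  have hlt := R.lt
  have DU : ∀ j1 j2, j1 < k → k ≤ j2 → j2 < 2 * k → Same w r j1 j → Same w r j2 j →
      f r j1 ≠ f (r + 1) j2 := by
    intro j1 j2 g1 g2 g2' s1 s2 he
    have : (op w r).1 = false ∧ j1 = (op w r).2 ∧ j2 = (op w r).2 + 1 := by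
      rcases s1 with s1 | ⟨e1, s1 | s1⟩ <;> rcases s2 with s2 | ⟨e2, s2 | s2⟩ <;>
        first | omega | exact ⟨e1, by omega, by omega⟩ | exact ⟨e2, by omega, by omega⟩
    obtain ⟨e, rfl, rfl⟩ := this
    obtain ⟨t1, t2⟩ := R.tch e (by omega)
    rw [t1] at he
    exact t2 he
  have crD : (op w r).1 = true → ∀ j', Same w r j' j → j' = j := by
    rintro e j' (h | ⟨h, -⟩)
    · exact h
    · rw [e] at h; simp at h
  have DG : ∀ j1, j1 < k → Same w r j1 j → (op w r).1 = true → j = (op w r).2 + 1 →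
      f r j1 ≠ colA k w f (Sum.inr (r, true)) := by
    intro j1 g1 s1 e1 e2 he
    obtain rfl := crD e1 j1 s1
    obtain ⟨c1, c2⟩ := R.cr e1
    rw [colA_g, if_pos (by omega), e2] at he
    have := R.i1.1 _ _ (by omega) (by omega) he
    omega
  have DH : ∀ j1, j1 < k → Same w r j1 j → (op w r).1 = true → j = (op w r).2 →
      f r j1 ≠ colA k w f (Sum.inr (r, false)) := by
    intro j1 g1 s1 e1 e2 he
    obtain rfl := crD e1 j1 s1
    obtain ⟨c1, c2⟩ := R.cr e1
    rw [colA_h, if_pos (by omega), e2] at he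
    have := R.i1.1 _ _ (by omega) (by omega) he
    omega
  have UG : ∀ j1, k ≤ j1 → j1 < 2 * k → Same w r j1 j → (op w r).1 = true →
      j = (op w r).2 + 1 → f (r + 1) j1 ≠ colA k w f (Sum.inr (r, true)) := by
    intro j1 g1 g1' s1 e1 e2 he
    obtain rfl := crD e1 j1 s1
    obtain ⟨c1, c2⟩ := R.cr e1
    rw [colA_g, if_neg (by omega), c2, e2, Function.comp_apply, swap_apply_right] at he
    have := R.i1.2 _ _ (by omega) (by omega) (by omega) (by omega) he
    omega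
  have UH : ∀ j1, k ≤ j1 → j1 < 2 * k → Same w r j1 j → (op w r).1 = true →
      j = (op w r).2 → f (r + 1) j1 ≠ colA k w f (Sum.inr (r, false)) := by
    intro j1 g1 g1' s1 e1 e2 he
    obtain rfl := crD e1 j1 s1
    obtain ⟨c1, c2⟩ := R.cr e1
    rw [colA_h, if_neg (by omega), c2, e2, Function.comp_apply, swap_apply_left] at he
    have := R.i1.2 _ _ (by omega) (by omega) (by omega) (by omega) he
    omega
  rcases head_cases hv ha hr hj h1 with ⟨j1, a1, rfl, a2⟩ | ⟨j1, a1, a1', rfl, a2⟩ |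
    ⟨a1, rfl, a2⟩ | ⟨a1, rfl, a2⟩ <;>
  rcases head_cases hv hb hr hj h2 with ⟨j2, b1, rfl, b2⟩ | ⟨j2, b1, b1', rfl, b2⟩ |
    ⟨b1, rfl, b2⟩ | ⟨b1, rfl, b2⟩
  · rw [R.i1.1 _ _ a1 b1 hc]
  · exact absurd hc (DU _ _ a1 b1 b1' a2 b2)
  · exact absurd hc (DG _ a1 a2 b1 b2)
  · exact absurd hc (DH _ a1 a2 b1 b2)
  · exact absurd hc.symm (DU _ _ b1 a1 a1' b2 a2)
  · rw [R.i2.2 _ _ a1 a1' b1 b1' hc]
  · exact absurd hc (UG _ a1 a1' a2 b1 b2)
  · exact absurd hc (UH _ a1 a1' a2 b1 b2)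
  · exact absurd hc.symm (DG _ b1 b2 a1 a2)
  · exact absurd hc.symm (UG _ b1 b1' b2 a1 a2)
  · rfl
  · omega
  · exact absurd hc.symm (DH _ b1 b2 a1 a2)
  · exact absurd hc.symm (UH _ b1 b1' b2 a1 a2)
  · omega
  · rfl

include h0 hT

theorem tl_inj_all {a b : Arc} (ha : a ∈ arcs k w) (hb : b ∈ arcs k w)
    (hc : colA k w f a = colA k w f b) (h : (ends k w a).1 = (ends k w b).1) : a = b := by
  have hb1 := te_bound hv ha
  have he := ends_fst k w a
  generalize (te k w a).1 = t at hb1 he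
  generalize (te k w a).2 = j at hb1 he
  rcases Nat.eq_zero_or_pos t with rfl | hpos
  · rw [vx_zero] at he
    obtain ⟨j1, g1, rfl⟩ := tail_zero hv ha he
    obtain ⟨j2, g2, rfl⟩ := tail_zero hv hb (h.symm.trans he)
    rw [h0.1 _ _ g1 g2 hc]
  · rcases Nat.lt_or_ge w.length t with h1 | h1
    · obtain rfl : t = w.length + 1 := by omega
      rw [vx_last] at he
      obtain ⟨j1, g1, g1', rfl⟩ := tail_last hv ha he
      obtain ⟨j2, g2, g2', rfl⟩ := tail_last hv hb (h.symm.trans he)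
      rw [hT.2 _ _ g1 g1' g2 g2' hc]
    · obtain ⟨r, rfl⟩ : ∃ r, t = r + 1 := ⟨t - 1, by omega⟩
      exact tl_inj_row f hv hf ha hb (by omega) hb1.2 he (h.symm.trans he) hc

theorem hd_inj_all {a b : Arc} (ha : a ∈ arcs k w) (hb : b ∈ arcs k w)
    (hc : colA k w f a = colA k w f b) (h : (ends k w a).2 = (ends k w b).2) : a = b := by
  have hb1 := he_bound hv ha
  have he := ends_snd k w a
  generalize (DCD.he k w a).1 = t at hb1 he
  generalize (DCD.he k w a).2 = j at hb1 he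
  rcases Nat.eq_zero_or_pos t with rfl | hpos
  · rw [vx_zero] at he
    obtain ⟨j1, g1, g1', rfl⟩ := head_zero hv ha he
    obtain ⟨j2, g2, g2', rfl⟩ := head_zero hv hb (h.symm.trans he)
    rw [h0.2 _ _ g1 g1' g2 g2' hc]
  · rcases Nat.lt_or_ge w.length t with h1 | h1
    · obtain rfl : t = w.length + 1 := by omega
      rw [vx_last] at he
      obtain ⟨j1, g1, rfl⟩ := head_last hv ha he
      obtain ⟨j2, g2, rfl⟩ := head_last hv hb (h.symm.trans he)
      rw [hT.1 _ _ g1 g2 hc]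
    · obtain ⟨r, rfl⟩ : ∃ r, t = r + 1 := ⟨t - 1, by omega⟩
      exact hd_inj_row f hv hf ha hb (by omega) hb1.2 he (h.symm.trans he) hc

end Bwd

end Pool.Agent.H675.DCD
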