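import Pool.Agent.H675.DCD.Backward

/-!
# From a run to a decomposition: the next arc
-/

namespace Pool.Agent.H675.DCD

open Equiv

section Bwd

variable {k : ℕ} {w : List (Bool × ℕ)} (f : ℕ → ℕ → Fin k)

theorem vx_same {r j j' : ℕ} (hr : r < w.length) (h : Same w r j j') :
    vx k w (r + 1) j = vx k w (r + 1) j' := by
  rw [vx_mid hr, vx_mid hr, posn_eq.2 h]

variable (hv : Valid k w) (hf : ∀ r < w.length, RowOK k (op w r) (f r) (f (r + 1)))
  (h0 : Inj2 k (f 0)) (hT : Inj2 k (f w.length))

include hv hf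

/-- the next arc in a row, for an arc whose head is on a first wire -/
theorem next_rowD {r j : ℕ} (hr : r < w.length) (hj : j < k) :
    ∃ b ∈ arcs k w, colA k w f b = f r j ∧ (ends k w b).1 = vx k w (r + 1) j := by
  have R := hf r hr
  have hlt := R.lt
  cases ho : (op w r).1
  · by_cases hk : (op w r).2 + 1 = k
    · obtain ⟨t1, -⟩ := R.tch ho hk
      refine ⟨Sum.inl (r + 1, j), mem_arcs_inl.2 ⟨hr, by omega⟩, ?_, by rw [ends_down hj]⟩
      rw [colA_inl, t1]
    · rcases R.me ho hk with t1 | t1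
      · refine ⟨Sum.inl (r + 1, j), mem_arcs_inl.2 ⟨hr, by omega⟩, ?_, by rw [ends_down hj]⟩
        rw [colA_inl, t1]
      · by_cases e1 : j = (op w r).2
        · refine ⟨Sum.inl (r + 1, (op w r).2 + 1), mem_arcs_inl.2 ⟨hr, by omega⟩, ?_, ?_⟩
          · rw [colA_inl, t1, Function.comp_apply, swap_apply_right, e1]
          · rw [ends_down (by omega)]
            exact vx_same hr (Or.inr ⟨ho, Or.inr ⟨rfl, e1⟩⟩)
        · by_cases e2 : j = (op w r).2 + 1
          · refine ⟨Sum.inl (r + 1, (op w r).2), mem_arcs_inl.2 ⟨hr, by omega⟩, ?_, ?_⟩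
            · rw [colA_inl, t1, Function.comp_apply, swap_apply_left, e2]
            · rw [ends_down (by omega)]
              exact vx_same hr (Or.inr ⟨ho, Or.inl ⟨rfl, e2⟩⟩)
          · refine ⟨Sum.inl (r + 1, j), mem_arcs_inl.2 ⟨hr, by omega⟩, ?_, by rw [ends_down hj]⟩
            rw [colA_inl, t1, Function.comp_apply, swap_apply_of_ne_of_ne e1 e2]
  · obtain ⟨hk, t1⟩ := R.cr ho
    by_cases e1 : j = (op w r).2
    · refine ⟨Sum.inr (r, true), mem_arcs_inr.2 ⟨hr, ho⟩, ?_, ?_⟩
      · rw [colA_g, if_pos (by omega), e1]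
      · rw [e1]; rfl
    · by_cases e2 : j = (op w r).2 + 1
      · refine ⟨Sum.inr (r, false), mem_arcs_inr.2 ⟨hr, ho⟩, ?_, ?_⟩
        · rw [colA_h, if_pos (by omega), e2]
        · rw [e2]; rfl
      · refine ⟨Sum.inl (r + 1, j), mem_arcs_inl.2 ⟨hr, by omega⟩, ?_, by rw [ends_down hj]⟩
        rw [colA_inl, t1, Function.comp_apply, swap_apply_of_ne_of_ne e1 e2]

/-- the next arc in a row, for an arc whose head is on a last wire -/
theorem next_rowU {r j : ℕ} (hr : r < w.length) (hj : k ≤ j) (hj' : j < 2 * k) :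
    ∃ b ∈ arcs k w, colA k w f b = f (r + 1) j ∧ (ends k w b).1 = vx k w (r + 1) j := by
  have R := hf r hr
  have hlt := R.lt
  cases ho : (op w r).1
  · by_cases hk : (op w r).2 + 1 = k
    · obtain ⟨t1, -⟩ := R.tch ho hk
      refine ⟨Sum.inl (r, j), mem_arcs_inl.2 ⟨hr.le, by omega⟩, ?_, by rw [ends_up hj]⟩
      rw [colA_inl, t1]
    · rcases R.me ho hk with t1 | t1
      · refine ⟨Sum.inl (r, j), mem_arcs_inl.2 ⟨hr.le, by omega⟩, ?_, by rw [ends_up hj]⟩
        rw [colA_inl, t1]
      · by_cases e1 : j = (op w r).2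
        · refine ⟨Sum.inl (r, (op w r).2 + 1), mem_arcs_inl.2 ⟨hr.le, by omega⟩, ?_, ?_⟩
          · rw [colA_inl, t1, Function.comp_apply, e1, swap_apply_left]
          · rw [ends_up (by omega)]
            exact vx_same hr (Or.inr ⟨ho, Or.inr ⟨rfl, e1⟩⟩)
        · by_cases e2 : j = (op w r).2 + 1
          · refine ⟨Sum.inl (r, (op w r).2), mem_arcs_inl.2 ⟨hr.le, by omega⟩, ?_, ?_⟩
            · rw [colA_inl, t1, Function.comp_apply, e2, swap_apply_right]
            · rw [ends_up (by omega)]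
              exact vx_same hr (Or.inr ⟨ho, Or.inl ⟨rfl, e2⟩⟩)
          · refine ⟨Sum.inl (r, j), mem_arcs_inl.2 ⟨hr.le, by omega⟩, ?_, by rw [ends_up hj]⟩
            rw [colA_inl, t1, Function.comp_apply, swap_apply_of_ne_of_ne e1 e2]
  · obtain ⟨hk, t1⟩ := R.cr ho
    by_cases e1 : j = (op w r).2
    · refine ⟨Sum.inr (r, true), mem_arcs_inr.2 ⟨hr, ho⟩, ?_, ?_⟩
      · rw [colA_g, if_neg (by omega), t1, Function.comp_apply, e1, swap_apply_left]
      · rw [e1]; rfl
    · by_cases e2 : j = (op w r).2 + 1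
      · refine ⟨Sum.inr (r, false), mem_arcs_inr.2 ⟨hr, ho⟩, ?_, ?_⟩
        · rw [colA_h, if_neg (by omega), t1, Function.comp_apply, e2, swap_apply_right]
        · rw [e2]; rfl
      · refine ⟨Sum.inl (r, j), mem_arcs_inl.2 ⟨hr.le, by omega⟩, ?_, by rw [ends_up hj]⟩
        rw [colA_inl, t1, Function.comp_apply, swap_apply_of_ne_of_ne e1 e2]

include h0 hT

theorem next_all {a : Arc} (ha : a ∈ arcs k w) :
    ∃ b ∈ arcs k w, colA k w f b = colA k w f a ∧ (ends k w b).1 = (ends k w a).2 := by
  rcases a with ⟨t, j⟩ | ⟨r, b⟩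
  · obtain ⟨ht, hj⟩ := mem_arcs_inl.1 ha
    rw [colA_inl]
    rcases Nat.lt_or_ge j k with hjk | hjk
    · rw [ends_down hjk]
      rcases Nat.lt_or_ge t w.length with h1 | h1
      · exact next_rowD f hv hf h1 hjk
      · obtain rfl : t = w.length := by omega
        obtain ⟨j', g1, g2, g3⟩ := hT.surjU (f w.length j)
        refine ⟨Sum.inl (w.length, j'), mem_arcs_inl.2 ⟨le_rfl, g2⟩, g3, ?_⟩
        rw [ends_up g1]
        simp only [vx_last]
    · rw [ends_up hjk]
      rcases Nat.eq_zero_or_pos t with rfl | hpos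
      · obtain ⟨j', g1, g2⟩ := h0.surjD (f 0 j)
        refine ⟨Sum.inl (0, j'), mem_arcs_inl.2 ⟨Nat.zero_le _, by omega⟩, g2, ?_⟩
        rw [ends_down g1]
        simp only [vx_zero]
      · obtain ⟨r, rfl⟩ : ∃ r, t = r + 1 := ⟨t - 1, by omega⟩
        exact next_rowU f hv hf (by omega) hjk hj
  · obtain ⟨hr, ho⟩ := mem_arcs_inr.1 ha
    have R := hf r hr
    have hlt := R.lt
    obtain ⟨hk, t1⟩ := R.cr ho
    cases b
    · rcases Nat.lt_or_ge (op w r).2 k with h1 | h1
      · refine ⟨Sum.inl (r + 1, (op w r).2), mem_arcs_inl.2 ⟨hr, by omega⟩, ?_, ?_⟩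
        · rw [colA_inl, colA_h, if_pos h1, t1, Function.comp_apply, swap_apply_left]
        · rw [ends_down h1]; rfl
      · refine ⟨Sum.inl (r, (op w r).2), mem_arcs_inl.2 ⟨hr.le, by omega⟩, ?_, ?_⟩
        · rw [colA_inl, colA_h, if_neg (by omega)]
        · rw [ends_up h1]; rfl
    · rcases Nat.lt_or_ge (op w r).2 k with h1 | h1
      · refine ⟨Sum.inl (r + 1, (op w r).2 + 1), mem_arcs_inl.2 ⟨hr, by omega⟩, ?_, ?_⟩
        · rw [colA_inl, colA_g, if_pos h1, t1, Function.comp_apply, swap_apply_right]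
        · rw [ends_down (by omega)]; rfl
      · refine ⟨Sum.inl (r, (op w r).2 + 1), mem_arcs_inl.2 ⟨hr.le, by omega⟩, ?_, ?_⟩
        · rw [colA_inl, colA_g, if_neg (by omega)]
        · rw [ends_up (by omega)]; rfl

theorem rank_all {a b : Arc} (ha : a ∈ arcs k w) (hb : b ∈ arcs k w)
    (hc : colA k w f b = colA k w f a) (h : (ends k w b).1 = (ends k w a).2)
    (hne : (ends k w a).2 ≠ 0) : rkA k w b < rkA k w a := by
  obtain ⟨n, hn, hnc, hnt⟩ := next_all f hv hf h0 hT ha
  -- the next arc is unique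
  obtain rfl : b = n := tl_inj_all f hv hf h0 hT hb hn (hc.trans hnc.symm) (h.trans hnt.symm)
  rcases a with ⟨t, j⟩ | ⟨r, c⟩
  · obtain ⟨ht, hj⟩ := mem_arcs_inl.1 ha
    rw [colA_inl] at hc
    rcases Nat.lt_or_ge j k with hjk | hjk
    · rw [ends_down hjk] at h
      simp only at h
      rcases Nat.lt_or_ge t w.length with h1 | h1
      · have R := hf t h1
        rcases tail_cases hv hb h1 hj h with ⟨j1, a1, rfl, a2⟩ | ⟨j1, a1, a1', rfl, a2⟩ |
          ⟨a1, rfl, a2⟩ | ⟨a1, rfl, a2⟩
        · simp only [rkA, Sum.elim_inl, if_pos a1, if_pos hjk]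
          omega
        · exfalso
          rcases a2 with a2 | ⟨e, ⟨s1, s2⟩ | ⟨s1, s2⟩⟩
          · omega
          · omega
          · obtain ⟨t1, t2⟩ := R.tch e (by omega)
            rw [colA_inl, s1, s2] at hc
            exact t2 hc.symm
        · simp only [rkA, Sum.elim_inl, Sum.elim_inr, if_pos hjk]
          rw [if_pos (by omega)]
          omega
        · simp only [rkA, Sum.elim_inl, Sum.elim_inr, if_pos hjk]
          rw [if_pos (by omega)]
          omega
      · obtain rfl : t = w.length := by omega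
        rw [vx_last] at h
        obtain ⟨j1, g1, g1', rfl⟩ := tail_last hv hb h
        simp only [rkA, Sum.elim_inl, if_pos hjk, if_neg (Nat.not_lt.2 g1)]
        omega
    · rw [ends_up hjk] at h hne
      simp only at h hne
      rcases Nat.eq_zero_or_pos t with rfl | hpos
      · rw [vx_zero] at hne
        exact absurd rfl hne
      · obtain ⟨r, rfl⟩ : ∃ r, t = r + 1 := ⟨t - 1, by omega⟩
        have hr : r < w.length := by omega
        have R := hf r hr
        rcases tail_cases hv hb hr hj h with ⟨j1, a1, rfl, a2⟩ | ⟨j1, a1, a1', rfl, a2⟩ |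
          ⟨a1, rfl, a2⟩ | ⟨a1, rfl, a2⟩
        · exfalso
          rcases a2 with a2 | ⟨e, ⟨s1, s2⟩ | ⟨s1, s2⟩⟩
          · omega
          · obtain ⟨t1, t2⟩ := R.tch e (by omega)
            rw [colA_inl, s1, s2, t1] at hc
            exact t2 hc
          · omega
        · simp only [rkA, Sum.elim_inl, if_neg (Nat.not_lt.2 a1), if_neg (Nat.not_lt.2 hjk)]
          omega
        · simp only [rkA, Sum.elim_inl, Sum.elim_inr, if_neg (Nat.not_lt.2 hjk)]
          rw [if_neg (by omega)]
          omega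
        · obtain ⟨hk, -⟩ := R.cr a1
          simp only [rkA, Sum.elim_inl, Sum.elim_inr, if_neg (Nat.not_lt.2 hjk)]
          rw [if_neg (by omega)]
          omega
  · obtain ⟨hr, ho⟩ := mem_arcs_inr.1 ha
    have R := hf r hr
    have hlt := R.lt
    obtain ⟨hk, t1⟩ := R.cr ho
    have hgh : colA k w f (Sum.inr (r, true)) ≠ colA k w f (Sum.inr (r, false)) := by
      rw [colA_g, colA_h]
      intro he
      rcases Nat.lt_or_ge (op w r).2 k with h1 | h1
      · rw [if_pos h1, if_pos h1] at he
        have := R.i1.1 _ _ h1 (by omega) he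
        omega
      · rw [if_neg (by omega), if_neg (by omega)] at he
        have := R.i1.2 _ _ (by omega) (by omega) (by omega) (by omega) he
        omega
    have hsame : ∀ j j', Same w r j j' → j = j' := by
      rintro j j' (h | ⟨h, -⟩)
      · exact h
      · rw [ho] at h
        simp at h
    have fin : ∀ j, j < 2 * k → (j = (op w r).2 ∨ j = (op w r).2 + 1) →
        (ends k w b).1 = vx k w (r + 1) j →
        (b ≠ Sum.inr (r, true)) → (b ≠ Sum.inr (r, false)) →
        rkA k w b < rkA k w (Sum.inr (r, c)) := by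
      intro j hj hj2 h n1 n2
      rcases tail_cases hv hb hr hj h with ⟨j1, a1, rfl, a2⟩ | ⟨j1, a1, a1', rfl, a2⟩ |
          ⟨a1, rfl, a2⟩ | ⟨a1, rfl, a2⟩
      · obtain rfl := hsame _ _ a2
        simp only [rkA, Sum.elim_inl, Sum.elim_inr, if_pos a1]
        rw [if_pos (by omega)]
        omega
      · obtain rfl := hsame _ _ a2
        simp only [rkA, Sum.elim_inl, Sum.elim_inr, if_neg (Nat.not_lt.2 a1)]
        rw [if_neg (by omega)]
        omega
      · exact absurd rfl n1
      · exact absurd rfl n2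
    cases c
    · refine fin (op w r).2 (by omega) (Or.inl rfl) h ?_ ?_
      · rintro rfl
        exact hgh hc
      · rintro rfl
        have : vx k w (r + 1) ((op w r).2 + 1) = vx k w (r + 1) (op w r).2 := h
        rw [vx_mid hr, vx_mid hr] at this
        have h2 : posn w r ((op w r).2 + 1) = posn w r (op w r).2 := by omega
        rw [posn_eq, ho] at h2
        simp at h2
    · refine fin ((op w r).2 + 1) hlt (Or.inr rfl) h ?_ ?_
      · rintro rfl
        have : vx k w (r + 1) (op w r).2 = vx k w (r + 1) ((op w r).2 + 1) := h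
        rw [vx_mid hr, vx_mid hr] at this
        have h2 : posn w r (op w r).2 = posn w r ((op w r).2 + 1) := by omega
        rw [posn_eq, ho] at h2
        simp at h2
      · rintro rfl
        exact hgh hc.symm

end Bwd

/-- **From a run to a decomposition with at most `k` cycles.** -/
theorem decomposition_of_run {k : ℕ} {w : List (Bool × ℕ)} (hv : Valid k w)
    {s s' : ℕ → Fin k} (h1 : ∀ p q, p < k → q < k → s p = s q → p = q)
    (h2 : ∀ p q, p < k → q < k → s (k + p) = s (k + q) → p = q) (hr : Run k w s s') :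
    CycleNumberLE (dig k w) k := by
  obtain ⟨f, hf0, hf⟩ := seq_of_run w s s' hr
  have hs : Inj2 k s := by
    refine ⟨h1, fun p q hp hp' hq hq' he => ?_⟩
    have := h2 (p - k) (q - k) (by omega) (by omega)
      (by rw [show k + (p - k) = p by omega, show k + (q - k) = q by omega]; exact he)
    omega
  have hinj : ∀ t ≤ w.length, Inj2 k (f t) := by
    intro t
    induction t with
    | zero => intro _; rw [hf0]; exact hs
    | succ t ih =>
      intro ht
      have ho := valid_op hv (show t < w.length by omega)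
      exact (rowOK_of_step (hf t (by omega)) (ih (by omega)) ho.1 ho.2).i2
  have hrow : ∀ r < w.length, RowOK k (op w r) (f r) (f (r + 1)) := by
    intro r hr
    have ho := valid_op hv hr
    exact rowOK_of_step (hf r hr) (hinj r hr.le) ho.1 ho.2
  have h0 := hinj 0 (Nat.zero_le _)
  have hT := hinj w.length le_rfl
  exact cycleNumberLE_of_col (nodup_arcs k w) (loopless_dig hv) 0 (colA k w f) (rkA k w)
    (fun a ha b hb hc h => tl_inj_all f hv hrow h0 hT ha hb hc h)
    (fun a ha b hb hc h => hd_inj_all f hv hrow h0 hT ha hb hc h)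
    (fun a ha => next_all f hv hrow h0 hT ha)
    (fun a ha b hb hc h hne => rank_all f hv hrow h0 hT ha hb hc h hne)

end Pool.Agent.H675.DCD
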