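import Pool.Agent.H675.DCD.Defs

/-!
# Decompositions and colourings
-/

namespace Pool.Agent.H675.DCD

open Equiv

/-- The properties of the colouring of the arcs by the members of a decomposition. -/
structure CycCol {ι κ : Type*} (f : ι → ℕ × ℕ) (col : ι → κ) : Prop where
  tl_inj : ∀ e e', col e = col e' → (f e).1 = (f e').1 → e = e'
  hd_inj : ∀ e e', col e = col e' → (f e).2 = (f e').2 → e = e'
  nxt : ∀ e, ∃ e', col e' = col e ∧ (f e').1 = (f e).2
  cut : ∀ (S : Set ℕ) (e e' : ι), col e = col e' → (f e).1 ∈ S → (f e').1 ∉ S →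
    ∃ e'', col e'' = col e ∧ (f e'').1 ∈ S ∧ (f e'').2 ∉ S

theorem CycCol.comp {ι ι' κ : Type*} {f : ι → ℕ × ℕ} {col : ι → κ} (h : CycCol f col)
    (φ : ι' ≃ ι) : CycCol (f ∘ φ) (col ∘ φ) where
  tl_inj e e' h1 h2 := φ.injective (h.tl_inj _ _ h1 h2)
  hd_inj e e' h1 h2 := φ.injective (h.hd_inj _ _ h1 h2)
  nxt e := by
    obtain ⟨e', h1, h2⟩ := h.nxt (φ e)
    exact ⟨φ.symm e', by simpa using h1, by simpa using h2⟩
  cut S e e' h1 h2 h3 := by
    obtain ⟨e'', g1, g2, g3⟩ := h.cut S (φ e) (φ e') h1 h2 h3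
    exact ⟨φ.symm e'', by simpa using g1, by simpa using g2, by simpa using g3⟩

theorem cycle_cut {D : Dig} {l : List (Fin D.length)} (h : IsDirCycle D l) (S : Set ℕ)
    {e e' : Fin D.length} (he : e ∈ l) (he' : e' ∈ l) (h1 : (D.get e).1 ∈ S)
    (h2 : (D.get e').1 ∉ S) : ∃ e'' ∈ l, (D.get e'').1 ∈ S ∧ (D.get e'').2 ∉ S := by
  by_contra hcon
  push Not at hcon
  obtain ⟨hlen, _, hh⟩ := h
  obtain ⟨i, hi, rfl⟩ := List.getElem_of_mem he
  obtain ⟨j, hj, rfl⟩ := List.getElem_of_mem he'
  have hpos : 0 < l.length := by omega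
  have key : ∀ t : ℕ, (D.get (l[(i + t) % l.length]'(Nat.mod_lt _ hpos))).1 ∈ S := by
    intro t
    induction t with
    | zero =>
      simp only [add_zero, Nat.mod_eq_of_lt hi]
      exact h1
    | succ t ih =>
      have h3 := hcon _ (List.getElem_mem (Nat.mod_lt (i + t) hpos)) ih
      rw [hh _ (Nat.mod_lt _ hpos)] at h3
      have : ((i + t) % l.length + 1) % l.length = (i + (t + 1)) % l.length := by
        rw [Nat.mod_add_mod]
        rfl
      simp only [this] at h3
      exact h3
  have h4 := key (j + l.length - i)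
  have : (i + (j + l.length - i)) % l.length = j := by
    rw [show i + (j + l.length - i) = j + l.length by omega, Nat.add_mod_right,
      Nat.mod_eq_of_lt hj]
  simp only [this] at h4
  exact h2 h4

theorem cycle_tl {D : Dig} {l : List (Fin D.length)} (h : IsDirCycle D l)
    {e e' : Fin D.length} (he : e ∈ l) (he' : e' ∈ l) (h1 : (D.get e).1 = (D.get e').1) :
    e = e' := by
  obtain ⟨i, hi, rfl⟩ := List.getElem_of_mem he
  obtain ⟨j, hj, rfl⟩ := List.getElem_of_mem he'
  have h2 := h.2.1
  have := (List.Nodup.getElem_inj_iff h2 (i := i) (j := j) (hi := by simpa using hi)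
    (hj := by simpa using hj)).1 (by simpa using h1)
  subst this
  rfl

theorem cycle_hd {D : Dig} {l : List (Fin D.length)} (h : IsDirCycle D l)
    {e e' : Fin D.length} (he : e ∈ l) (he' : e' ∈ l) (h1 : (D.get e).2 = (D.get e').2) :
    e = e' := by
  obtain ⟨i, hi, rfl⟩ := List.getElem_of_mem he
  obtain ⟨j, hj, rfl⟩ := List.getElem_of_mem he'
  have hpos : 0 < l.length := by omega
  rw [h.2.2 i hi, h.2.2 j hj] at h1
  have h2 := h.2.1
  have := (List.Nodup.getElem_inj_iff h2 (i := (i + 1) % l.length) (j := (j + 1) % l.length)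
    (hi := by simpa using Nat.mod_lt _ hpos)
    (hj := by simpa using Nat.mod_lt _ hpos)).1 (by simpa using h1)
  have h3 : i = j := by
    by_cases h4 : i + 1 = l.length
    · rw [h4, Nat.mod_self] at this
      by_cases h5 : j + 1 = l.length
      · omega
      · rw [Nat.mod_eq_of_lt (show j + 1 < l.length by omega)] at this
        omega
    · rw [Nat.mod_eq_of_lt (show i + 1 < l.length by omega)] at this
      by_cases h5 : j + 1 = l.length
      · rw [h5, Nat.mod_self] at this
        omega
      · rw [Nat.mod_eq_of_lt (show j + 1 < l.length by omega)] at this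
        omega
  subst h3
  rfl

theorem exists_col_aux {D : Dig} {P : List (List (Fin D.length))} (h : IsDecomposition D P) :
    ∃ col : Fin D.length → Fin P.length, Function.Surjective col ∧ CycCol D.get col := by
  have hex : ∀ e, ∃ i : Fin P.length, e ∈ P[i] := by
    intro e
    have h1 : e ∈ P.flatten := by
      rw [← List.count_pos_iff, h.2 e]
      exact Nat.one_pos
    obtain ⟨c, hc, hec⟩ := List.mem_flatten.1 h1
    obtain ⟨i, hi, rfl⟩ := List.getElem_of_mem hc
    exact ⟨⟨i, hi⟩, hec⟩
  have hnd : P.flatten.Nodup := List.nodup_iff_count_le_one.2 fun e => (h.2 e).le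
  rw [List.nodup_flatten] at hnd
  have huniq : ∀ (e) (i j : Fin P.length), e ∈ P[i] → e ∈ P[j] → i = j := by
    intro e i j hi hj
    have hp := List.pairwise_iff_getElem.1 hnd.2
    rcases lt_trichotomy i j with hij | hij | hij
    · exact absurd hj (hp i j i.2 j.2 hij hi)
    · exact hij
    · exact absurd hi (hp j i j.2 i.2 hij hj)
  choose col hcol using hex
  have hc : ∀ e, IsDirCycle D P[col e] := fun e => h.1 _ (List.getElem_mem _)
  have hmem : ∀ e e', col e = col e' → e' ∈ P[col e] := by
    intro e e' he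
    have := hcol e'
    simp only [← he] at this
    exact this
  refine ⟨col, ?_, ?_, ?_, ?_, ?_⟩
  · intro i
    have h1 := (h.1 P[i] (List.getElem_mem _)).1
    have h2 : P[i][0] ∈ P[i] := List.getElem_mem _
    exact ⟨P[i][0], huniq _ _ _ (hcol _) h2⟩
  · intro e e' he h1
    exact cycle_tl (hc e) (hcol e) (hmem e e' he) h1
  · intro e e' he h1
    exact cycle_hd (hc e) (hcol e) (hmem e e' he) h1
  · intro e
    obtain ⟨i, hi, hie⟩ := List.getElem_of_mem (hcol e)
    have h1 := (hc e).2.2 i hi
    rw [hie] at h1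
    exact ⟨_, huniq _ _ _ (hcol _) (List.getElem_mem _), h1.symm⟩
  · intro S e e' he h1 h2
    obtain ⟨e'', h3, h4, h5⟩ := cycle_cut (hc e) S (hcol e) (hmem e e' he) h1 h2
    exact ⟨e'', huniq _ _ _ (hcol _) h3, h4, h5⟩

/-- The places of the list `A.map f` and the elements of `A`. -/
noncomputable def placeEquiv {α : Type*} (A : List α) (hA : A.Nodup) (f : α → ℕ × ℕ) :
    {a // a ∈ A} ≃ Fin (A.map f).length := by
  classical
  exact (hA.getEquiv).symm.trans (finCongr (by simp))

theorem get_placeEquiv {α : Type*} (A : List α) (hA : A.Nodup) (f : α → ℕ × ℕ) (a : {a // a ∈ A}) :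
    (A.map f).get (placeEquiv A hA f a) = f a := by
  classical
  have h : ((hA.getEquiv) ((hA.getEquiv).symm a)).1 = a.1 := by simp
  have h2 : A.get ((hA.getEquiv).symm a) = a.1 := h
  simp only [placeEquiv, List.get_eq_getElem, List.getElem_map, Equiv.trans_apply,
    finCongr_apply, Fin.val_cast]
  rw [← h2]
  rfl

/-- A decomposition colours the arcs. -/
theorem exists_col {α : Type*} {A : List α} (hA : A.Nodup) {f : α → ℕ × ℕ}
    {P : List (List (Fin (A.map f).length))} (h : IsDecomposition (A.map f) P) :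
    ∃ col : {a // a ∈ A} → Fin P.length, Function.Surjective col ∧
      CycCol (fun a : {a // a ∈ A} => f a) col := by
  obtain ⟨col, h1, h2⟩ := exists_col_aux h
  refine ⟨col ∘ placeEquiv A hA f, h1.comp (Equiv.surjective _), ?_⟩
  have h3 := h2.comp (placeEquiv A hA f)
  have h4 : (A.map f).get ∘ (placeEquiv A hA f) = fun a : {a // a ∈ A} => f a := by
    funext a
    exact get_placeEquiv A hA f a
  rw [h4] at h3
  exact h3

/-- A colouring of the arcs which is locally correct, and for which the vertex `s` is reached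
from each arc, gives a decomposition. -/
theorem cycleNumberLE_of_col_aux {D : Dig} (hD : Loopless D) {k : ℕ} (s : ℕ)
    (col : Fin D.length → Fin k) (rk : Fin D.length → ℕ)
    (h1 : ∀ e e', col e = col e' → (D.get e).1 = (D.get e').1 → e = e')
    (h2 : ∀ e e', col e = col e' → (D.get e).2 = (D.get e').2 → e = e')
    (h3 : ∀ e, ∃ e', col e' = col e ∧ (D.get e').1 = (D.get e).2)
    (h4 : ∀ e e', col e' = col e → (D.get e').1 = (D.get e).2 → (D.get e).2 ≠ s →
      rk e' < rk e) : CycleNumberLE D k := by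
  classical
  choose nx hnx1 hnx2 using h3
  have hinj : Function.Injective nx := by
    intro e e' he
    apply h2
    · rw [← hnx1 e, ← hnx1 e', he]
    · rw [← hnx2 e, ← hnx2 e', he]
  let σ : Perm (Fin D.length) := Equiv.ofBijective nx (Finite.injective_iff_bijective.1 hinj)
  have hσ : ∀ e, σ e = nx e := fun e => rfl
  have hpow : ∀ (n : ℕ) e, col ((σ ^ n) e) = col e := by
    intro n
    induction n with
    | zero => intro e; rfl
    | succ n ih => intro e; rw [pow_succ', Perm.mul_apply, hσ, hnx1, ih]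
  have hsc : ∀ e e', σ.SameCycle e e' → col e' = col e := by
    intro e e' h
    obtain ⟨n, -, -, rfl⟩ := h.exists_pow_eq
    exact hpow n e
  have hreach : ∀ (r : ℕ) (e), rk e ≤ r → ∃ e0, (D.get e0).1 = s ∧ σ.SameCycle e0 e := by
    intro r
    induction r using Nat.strong_induction_on with
    | _ r ih =>
      intro e he
      by_cases hs : (D.get e).2 = s
      · refine ⟨nx e, by rw [hnx2, hs], ?_⟩
        have : σ.SameCycle (σ e) e := Perm.sameCycle_apply_left.2 (Perm.SameCycle.refl _ _)
        exact this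
      · have hlt := h4 e (nx e) (hnx1 e) (hnx2 e) hs
        obtain ⟨e0, g1, g2⟩ := ih (rk (nx e)) (by omega) (nx e) le_rfl
        refine ⟨e0, g1, ?_⟩
        exact Perm.sameCycle_apply_right.1 g2
  have hsupp : ∀ e, e ∈ σ.support := by
    intro e
    rw [Perm.mem_support]
    intro he
    have g1 := hnx2 e
    rw [← hσ, he] at g1
    exact hD _ (List.get_mem D e) g1
  let S0 : Finset (Fin D.length) := Finset.univ.filter fun e => (D.get e).1 = s
  have hS0 : ∀ e, e ∈ S0 ↔ (D.get e).1 = s := by intro e; simp [S0]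
  refine ⟨S0.toList.map fun e => σ.toList e, ⟨?_, ?_⟩, ?_⟩
  · intro c hc
    rw [List.mem_map] at hc
    obtain ⟨e0, -, rfl⟩ := hc
    refine ⟨Perm.two_le_length_toList_iff_mem_support.2 (hsupp e0), ?_, ?_⟩
    · apply List.Nodup.map_on _ (Perm.nodup_toList _ _)
      intro x hx y hy hxy
      rw [Perm.mem_toList_iff] at hx hy
      exact h1 _ _ ((hsc _ _ hx.1).trans (hsc _ _ hy.1).symm) hxy
    · intro i hi
      rw [Perm.getElem_toList, Perm.getElem_toList, ← hnx2]
      congr 2
      rw [← hσ, ← Perm.mul_apply, ← pow_succ']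
      rw [Perm.length_toList]
      exact (Perm.pow_mod_card_support_cycleOf_self_apply σ (i + 1) e0).symm
  · intro e
    apply List.count_eq_one_of_mem
    · rw [List.nodup_flatten]
      constructor
      · intro l hl
        rw [List.mem_map] at hl
        obtain ⟨e0, -, rfl⟩ := hl
        exact Perm.nodup_toList _ _
      · rw [List.pairwise_map]
        have hnd := S0.nodup_toList
        apply List.Pairwise.imp_of_mem _ hnd
        intro a b ha hb hab x hxa hxb
        rw [Finset.mem_toList, hS0] at ha hb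
        rw [Perm.mem_toList_iff] at hxa hxb
        apply hab
        apply h1
        · rw [← hsc _ _ hxa.1, ← hsc _ _ hxb.1]
        · rw [ha, hb]
    · rw [List.mem_flatten]
      obtain ⟨e0, g1, g2⟩ := hreach _ e le_rfl
      refine ⟨σ.toList e0, List.mem_map.2 ⟨e0, ?_, rfl⟩, ?_⟩
      · rw [Finset.mem_toList, hS0]
        exact g1
      · rw [Perm.mem_toList_iff]
        exact ⟨g2, hsupp e0⟩
  · rw [List.length_map, Finset.length_toList]
    have : S0.card ≤ (Finset.univ : Finset (Fin k)).card := by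
      apply Finset.card_le_card_of_injOn col (fun _ _ => Finset.mem_univ _)
      intro a ha b hb hab
      rw [Finset.mem_coe, hS0] at ha hb
      exact h1 a b hab (ha.trans hb.symm)
    simpa using this

theorem cycleNumberLE_of_col {α : Type*} {A : List α} (hA : A.Nodup) {f : α → ℕ × ℕ}
    (hD : Loopless (A.map f)) {k : ℕ} (s : ℕ) (col : α → Fin k) (rk : α → ℕ)
    (h1 : ∀ a ∈ A, ∀ b ∈ A, col a = col b → (f a).1 = (f b).1 → a = b)
    (h2 : ∀ a ∈ A, ∀ b ∈ A, col a = col b → (f a).2 = (f b).2 → a = b)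
    (h3 : ∀ a ∈ A, ∃ b ∈ A, col b = col a ∧ (f b).1 = (f a).2)
    (h4 : ∀ a ∈ A, ∀ b ∈ A, col b = col a → (f b).1 = (f a).2 → (f a).2 ≠ s →
      rk b < rk a) : CycleNumberLE (A.map f) k := by
  let φ := placeEquiv A hA f
  have hg : ∀ e, (A.map f).get e = f (φ.symm e) := by
    intro e
    rw [← get_placeEquiv A hA f]
    congr 1
    exact (Equiv.apply_symm_apply φ e).symm
  apply cycleNumberLE_of_col_aux hD s (fun e => col (φ.symm e)) (fun e => rk (φ.symm e))
  · intro e e' he h
    rw [hg, hg] at h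
    exact φ.symm.injective (Subtype.ext (h1 _ (φ.symm e).2 _ (φ.symm e').2 he h))
  · intro e e' he h
    rw [hg, hg] at h
    exact φ.symm.injective (Subtype.ext (h2 _ (φ.symm e).2 _ (φ.symm e').2 he h))
  · intro e
    obtain ⟨b, hb, g1, g2⟩ := h3 _ (φ.symm e).2
    refine ⟨φ ⟨b, hb⟩, ?_, ?_⟩
    · simp only [Equiv.symm_apply_apply]
      exact g1
    · rw [hg, hg, Equiv.symm_apply_apply]
      exact g2
  · intro e e' he h hs
    rw [hg, hg] at h
    rw [hg] at hs
    exact h4 _ (φ.symm e).2 _ (φ.symm e').2 he h hs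

end Pool.Agent.H675.DCD
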