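import Mathlib

/-!
# Directed cycle decompositions of planar Eulerian digraphs: definitions
-/

namespace Pool.Agent.H675.DCD

/-- A finite digraph, given by the list of its arcs `(tail, head)`. The vertices are the natural
numbers that occur in the list. An arc may be repeated: parallel arcs are allowed. -/
abbrev Dig : Type := List (ℕ × ℕ)

/-- There are no loops. -/
def Loopless (D : Dig) : Prop := ∀ a ∈ D, a.1 ≠ a.2

/-- Every vertex `v` has as many arcs with tail `v` as arcs with head `v`. -/
def Eulerian (D : Dig) : Prop :=
  ∀ v : ℕ, D.countP (fun a => decide (a.1 = v)) = D.countP (fun a => decide (a.2 = v))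

/-- The underlying multigraph is planar: the vertices can be placed at different points of the
plane such that the straight line segments of two arcs with different sets of ends meet in common
ends only. (Arcs with the same two ends are drawn side by side. A finite graph is planar if and
only if it has such a drawing with straight line segments, by the theorem of Fáry.) -/
def Planar (D : Dig) : Prop :=
  ∃ p : ℕ → ℝ × ℝ, Function.Injective p ∧
    ∀ a ∈ D, ∀ b ∈ D, ({a.1, a.2} : Set ℕ) ≠ {b.1, b.2} →
      ∀ z ∈ segment ℝ (p a.1) (p a.2), z ∈ segment ℝ (p b.1) (p b.2) →
        ∃ v ∈ ({a.1, a.2} : Set ℕ), v ∈ ({b.1, b.2} : Set ℕ) ∧ z = p v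

/-- The list `l` of arcs of `D` (given by their places in the list `D`) is a directed cycle: it
has at least two arcs, no vertex is visited twice, and the head of each arc is the tail of the
next one (cyclically). -/
def IsDirCycle (D : Dig) (l : List (Fin D.length)) : Prop :=
  2 ≤ l.length ∧ (l.map fun e => (D.get e).1).Nodup ∧
    ∀ (i : ℕ) (hi : i < l.length),
      (D.get l[i]).2 = (D.get (l[(i + 1) % l.length]'(Nat.mod_lt _ (Nat.zero_lt_of_lt hi)))).1

/-- `P` is a decomposition of `D` into directed cycles: its members are directed cycles and each
arc of `D` belongs to exactly one of them, exactly once. -/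
def IsDecomposition (D : Dig) (P : List (List (Fin D.length))) : Prop :=
  (∀ l ∈ P, IsDirCycle D l) ∧ ∀ e : Fin D.length, P.flatten.count e = 1

/-- `c(D) ≤ k`: some directed cycle decomposition of `D` has at most `k` members. -/
def CycleNumberLE (D : Dig) (k : ℕ) : Prop :=
  ∃ P : List (List (Fin D.length)), IsDecomposition D P ∧ P.length ≤ k

end Pool.Agent.H675.DCD
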