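import Pool.Agent.H675.DCD.Graph

/-!
# From a decomposition to a run
-/

namespace Pool.Agent.H675.DCD

open Equiv

/-- From a sequence of states to a run. -/
theorem run_of_seq {C : Type*} {k : ℕ} : ∀ (w : List (Bool × ℕ)) (f : ℕ → ℕ → C),
    (∀ r < w.length, Step k (op w r) (f r) (f (r + 1))) → Run k w (f 0) (f w.length)
  | [], f, _ => rfl
  | o :: w, f, h => by
    refine ⟨f 1, ?_, ?_⟩
    · have := h 0 (by simp)
      simpa [op] using this
    · have := run_of_seq w (fun t => f (t + 1)) (fun r hr => by
        have := h (r + 1) (by simpa using hr)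
        simpa [op] using this)
      simpa using this

/-- From a run to a sequence of states. -/
theorem seq_of_run {C : Type*} {k : ℕ} : ∀ (w : List (Bool × ℕ)) (c c' : ℕ → C), Run k w c c' →
    ∃ f : ℕ → ℕ → C, f 0 = c ∧ ∀ r < w.length, Step k (op w r) (f r) (f (r + 1))
  | [], c, c', _ => ⟨fun _ => c, rfl, fun r hr => by simp at hr⟩
  | o :: w, c, c', ⟨c1, h1, h2⟩ => by
    obtain ⟨f, hf0, hf⟩ := seq_of_run w c1 c' h2
    refine ⟨fun t => if t = 0 then c else f (t - 1), by simp, fun r hr => ?_⟩
    cases r with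
    | zero =>
      simp only [if_true, zero_add, Nat.sub_self, hf0]
      rw [if_neg (by omega)]
      simpa [op] using h1
    | succ r =>
      have := hf r (by simpa using hr)
      simpa [op] using this

section Fwd

variable {k : ℕ} {w : List (Bool × ℕ)}

/-- The arc of a wire. -/
def wa (t j : ℕ) (h : t ≤ w.length ∧ j < 2 * k) : {a // a ∈ arcs k w} :=
  ⟨Sum.inl (t, j), mem_arcs_inl.2 h⟩

variable (hv : Valid k w) {col : {a // a ∈ arcs k w} → Fin k}
  (hc : CycCol (fun a : {a // a ∈ arcs k w} => ends k w a) col)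

include hc

/-- each colour occurs on an arc with tail `0` -/
theorem all_zero (x : Fin k) : ∃ e, col e = x ∧ (ends k w e).1 = 0 := by
  have hinj : Function.Injective
      (fun j : Fin k => col (wa 0 j ⟨Nat.zero_le _, by have := j.2; omega⟩)) := by
    intro i j hij
    have := hc.tl_inj _ _ hij (by
      change (ends k w (Sum.inl (0, (i : ℕ)))).1 = (ends k w (Sum.inl (0, (j : ℕ)))).1
      simp [ends, vx_zero])
    have h2 := congrArg Subtype.val this
    simp only [wa, Sum.inl.injEq, Prod.mk.injEq, true_and] at h2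
    exact Fin.ext h2
  obtain ⟨j, hj⟩ := Finite.surjective_of_injective hinj x
  refine ⟨_, hj, ?_⟩
  change (ends k w (Sum.inl (0, (j : ℕ)))).1 = 0
  simp [ends, vx_zero]

/-- each colour occurs on an arc with tail `1` -/
theorem all_last (x : Fin k) : ∃ e, col e = x ∧ (ends k w e).1 = 1 := by
  have hinj : Function.Injective
      (fun j : Fin k => col (wa w.length (k + j) ⟨le_rfl, by have := j.2; omega⟩)) := by
    intro i j hij
    have := hc.tl_inj _ _ hij (by
      change (ends k w (Sum.inl (w.length, k + (i : ℕ)))).1 =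
        (ends k w (Sum.inl (w.length, k + (j : ℕ)))).1
      simp [ends, vx_last])
    have h2 := congrArg Subtype.val this
    simp only [wa, Sum.inl.injEq, Prod.mk.injEq, true_and, Nat.add_left_cancel_iff] at h2
    exact Fin.ext h2
  obtain ⟨j, hj⟩ := Finite.surjective_of_injective hinj x
  refine ⟨_, hj, ?_⟩
  change (ends k w (Sum.inl (w.length, k + (j : ℕ)))).1 = 1
  simp [ends, vx_last]

omit hc in
/-- the vertices of the levels `0, …, t` -/
theorem below_iff (hv : Valid k w) {t t' j : ℕ} (ht : t ≤ w.length) (ht' : t' ≤ w.length + 1)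
    (hj : j < 2 * k) :
    (vx k w t' j = 0 ∨ (2 ≤ vx k w t' j ∧ vx k w t' j < 2 + t * (2 * k))) ↔ t' ≤ t := by
  rcases Nat.eq_zero_or_pos t' with rfl | h0
  · simp [vx_zero]
  · rcases Nat.lt_or_ge w.length t' with h1 | h1
    · obtain rfl : t' = w.length + 1 := by omega
      rw [vx_last]
      omega
    · obtain ⟨r, rfl⟩ : ∃ r, t' = r + 1 := ⟨t' - 1, by omega⟩
      rw [vx_mid (by omega)]
      have hp := posn_lt hv (show r < w.length by omega) hj
      constructor
      · intro h
        by_contra hcon
        have : t * (2 * k) ≤ r * (2 * k) := Nat.mul_le_mul_right _ (by omega)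
        omega
      · intro h
        right
        have : (r + 1) * (2 * k) ≤ t * (2 * k) := Nat.mul_le_mul_right _ h
        rw [Nat.add_mul] at this
        omega

include hv

/-- at each level each colour occurs on one of the first wires -/
theorem surj_down {t : ℕ} (ht : t ≤ w.length) (x : Fin k) :
    ∃ (j : ℕ) (hj : j < k), col (wa t j ⟨ht, by omega⟩) = x := by
  obtain ⟨e, he1, he2⟩ := all_zero hc x
  obtain ⟨e', he1', he2'⟩ := all_last hc x
  let S : Set ℕ := {v | v = 0 ∨ (2 ≤ v ∧ v < 2 + t * (2 * k))}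
  obtain ⟨⟨a, ha⟩, h1, h2, h3⟩ := hc.cut S e e' (he1.trans he1'.symm)
    (by rw [he2]; exact Or.inl rfl) (by rw [he2']; simp [S])
  change (ends k w a).1 ∈ S at h2
  change (ends k w a).2 ∉ S at h3
  rw [ends_fst] at h2
  rw [ends_snd] at h3
  have hb1 := te_bound hv ha
  have hb2 := he_bound hv ha
  have h2' := (below_iff hv ht hb1.1 hb1.2).1 h2
  have h3' : ¬ (he k w a).1 ≤ t := fun h => h3 ((below_iff hv ht hb2.1 hb2.2).2 h)
  rcases a with ⟨t', j⟩ | ⟨r, b⟩
  · have ha' := mem_arcs_inl.1 ha
    simp only [te, he, Sum.elim_inl] at h2' h3'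
    by_cases hj : j < k
    · simp only [if_pos hj] at h2' h3'
      obtain rfl : t' = t := by omega
      exact ⟨j, hj, h1.trans he1⟩
    · simp only [if_neg hj] at h2' h3'
      omega
  · simp only [te, he, Sum.elim_inr] at h2' h3'
    split_ifs at h2' h3' <;> omega

/-- at each level each colour occurs on one of the last wires -/
theorem surj_up {t : ℕ} (ht : t ≤ w.length) (x : Fin k) :
    ∃ (j : ℕ) (hj : j < k), col (wa t (k + j) ⟨ht, by omega⟩) = x := by
  obtain ⟨e, he1, he2⟩ := all_zero hc x
  obtain ⟨e', he1', he2'⟩ := all_last hc x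
  let S : Set ℕ := {v | ¬ (v = 0 ∨ (2 ≤ v ∧ v < 2 + t * (2 * k)))}
  obtain ⟨⟨a, ha⟩, h1, h2, h3⟩ := hc.cut S e' e (he1'.trans he1.symm)
    (by rw [he2']; simp [S]) (by rw [he2]; simp [S])
  change (ends k w a).1 ∈ S at h2
  change (ends k w a).2 ∉ S at h3
  rw [ends_fst] at h2
  rw [ends_snd] at h3
  simp only [S, Set.mem_ofPred_eq, not_not] at h2 h3
  have hb1 := te_bound hv ha
  have hb2 := he_bound hv ha
  rw [below_iff hv ht hb1.1 hb1.2] at h2
  rw [below_iff hv ht hb2.1 hb2.2] at h3
  rcases a with ⟨t', j⟩ | ⟨r, b⟩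
  · have ha' := mem_arcs_inl.1 ha
    simp only [te, he, Sum.elim_inl] at h2 h3
    by_cases hj : j < k
    · simp only [if_pos hj] at h2 h3
      omega
    · simp only [if_neg hj] at h2 h3
      obtain rfl : t' = t := by omega
      refine ⟨j - k, by omega, ?_⟩
      have : wa t' (k + (j - k)) ⟨ht, by omega⟩ = (⟨Sum.inl (t', j), ha⟩ : {a // a ∈ arcs k w}) := by
        apply Subtype.ext
        simp only [wa]
        rw [show k + (j - k) = j by omega]
      rw [this]
      exact h1.trans he1'
  · simp only [te, he, Sum.elim_inr] at h2 h3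
    split_ifs at h2 h3 <;> omega

theorem inj_down {t : ℕ} (ht : t ≤ w.length) {i j : ℕ} (hi : i < k) (hj : j < k)
    (h : col (wa t i ⟨ht, by omega⟩) = col (wa t j ⟨ht, by omega⟩)) : i = j := by
  have hs : Function.Surjective (fun j : Fin k => col (wa t j ⟨ht, by have := j.2; omega⟩)) := by
    intro x
    obtain ⟨j, hj, h⟩ := surj_down hv hc ht x
    exact ⟨⟨j, hj⟩, h⟩
  have := Finite.injective_iff_surjective.2 hs
  have h2 := @this ⟨i, hi⟩ ⟨j, hj⟩ h
  simpa using h2

theorem inj_up {t : ℕ} (ht : t ≤ w.length) {i j : ℕ} (hi : i < k) (hj : j < k)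
    (h : col (wa t (k + i) ⟨ht, by omega⟩) = col (wa t (k + j) ⟨ht, by omega⟩)) : i = j := by
  have hs : Function.Surjective
      (fun j : Fin k => col (wa t (k + j) ⟨ht, by have := j.2; omega⟩)) := by
    intro x
    obtain ⟨j, hj, h⟩ := surj_up hv hc ht x
    exact ⟨⟨j, hj⟩, h⟩
  have := Finite.injective_iff_surjective.2 hs
  have h2 := @this ⟨i, hi⟩ ⟨j, hj⟩ h
  simpa using h2

omit hv in
/-- The crossing gadget: the colours are exchanged. -/
theorem digon {g h x z y v : {a // a ∈ arcs k w}} {p q : ℕ} (hp : p ≠ 0) (hq : q ≠ 0)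
    (g1 : (ends k w g).1 = p) (g2 : (ends k w g).2 = q)
    (h1 : (ends k w h).1 = q) (h2 : (ends k w h).2 = p)
    (hx : (ends k w x).2 = p) (hz : (ends k w z).2 = q)
    (hxh : x ≠ h) (hzg : z ≠ g)
    (tp : ∀ e : {a // a ∈ arcs k w}, (ends k w e).1 = p → e = y ∨ e = g)
    (tq : ∀ e : {a // a ∈ arcs k w}, (ends k w e).1 = q → e = v ∨ e = h) :
    col v = col x ∧ col y = col z := by
  have hgh : col h ≠ col g := by
    intro he
    obtain ⟨e0, he0, he0'⟩ := all_zero hc (col g)
    obtain ⟨e, c1, c2, c3⟩ := hc.cut {p, q} g e0 he0.symm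
      (by rw [g1]; simp)
      (by
        rw [he0']
        simp only [Set.mem_insert_iff, Set.mem_singleton_iff, not_or]
        exact ⟨hp.symm, hq.symm⟩)
    change (ends k w e).1 ∈ ({p, q} : Set ℕ) at c2
    change (ends k w e).2 ∉ ({p, q} : Set ℕ) at c3
    rcases c2 with c2 | c2
    · have : e = g := hc.tl_inj _ _ c1 (c2.trans g1.symm)
      subst this
      exact c3 (by rw [g2]; simp)
    · have : e = h := hc.tl_inj _ _ (c1.trans he.symm) (Eq.trans c2 h1.symm)
      subst this
      exact c3 (by rw [h2]; simp)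
  have a1 : col y = col h := by
    obtain ⟨e, c1, c2⟩ := hc.nxt h
    change (ends k w e).1 = (ends k w h).2 at c2
    rcases tp e (c2.trans h2) with rfl | rfl
    · exact c1
    · exact absurd c1.symm hgh
  have a2 : col v = col g := by
    obtain ⟨e, c1, c2⟩ := hc.nxt g
    change (ends k w e).1 = (ends k w g).2 at c2
    rcases tq e (c2.trans g2) with rfl | rfl
    · exact c1
    · exact absurd c1 hgh
  have a3 : col x = col g := by
    obtain ⟨e, c1, c2⟩ := hc.nxt x
    change (ends k w e).1 = (ends k w x).2 at c2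
    rcases tp e (c2.trans hx) with rfl | rfl
    · exact absurd (hc.hd_inj x h (c1.symm.trans a1) (hx.trans h2.symm)) hxh
    · exact c1.symm
  have a4 : col z = col h := by
    obtain ⟨e, c1, c2⟩ := hc.nxt z
    change (ends k w e).1 = (ends k w z).2 at c2
    rcases tq e (c2.trans hz) with rfl | rfl
    · exact absurd (hc.hd_inj z g (c1.symm.trans a2) (hz.trans g2.symm)) hzg
    · exact c1.symm
  exact ⟨a2.trans a3.symm, a1.trans a4.symm⟩

omit hv hc in
theorem ends_down {t j : ℕ} (hj : j < k) :
    ends k w (Sum.inl (t, j)) = (vx k w t j, vx k w (t + 1) j) := by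
  simp [ends, hj]

omit hv hc in
theorem ends_up {t j : ℕ} (hj : k ≤ j) :
    ends k w (Sum.inl (t, j)) = (vx k w (t + 1) j, vx k w t j) := by
  simp [ends, Nat.not_lt.2 hj]

/-- The colours at level `t`. -/
noncomputable def cs (hk : 0 < k) (col : {a // a ∈ arcs k w} → Fin k) (t j : ℕ) : Fin k :=
  if h : t ≤ w.length ∧ j < 2 * k then col (wa t j h) else ⟨0, hk⟩

omit hv hc in
theorem cs_eq (hk : 0 < k) {t j : ℕ} (h : t ≤ w.length ∧ j < 2 * k) :
    cs hk col t j = col (wa t j h) := dif_pos h

/-- the next arc of a wire that comes into a row -/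
theorem next_down {r j : ℕ} (hr : r < w.length) (hj : j < k) (hne : (op w r).1 = true → j ≠ (op w r).2 ∧ j ≠ (op w r).2 + 1) :
    (∃ (j' : ℕ) (hj' : j' < k), Same w r j' j ∧
      col (wa (r + 1) j' ⟨hr, by omega⟩) = col (wa r j ⟨hr.le, by omega⟩)) ∨
    (∃ (j' : ℕ) (hj' : j' < 2 * k), k ≤ j' ∧ Same w r j' j ∧
      col (wa r j' ⟨hr.le, hj'⟩) = col (wa r j ⟨hr.le, by omega⟩)) := by
  obtain ⟨⟨e, hea⟩, h1, h2⟩ := hc.nxt (wa r j ⟨hr.le, by omega⟩)
  change (ends k w e).1 = (ends k w (Sum.inl (r, j))).2 at h2
  rw [ends_down hj] at h2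
  rcases tail_cases hv hea hr (by omega) h2 with ⟨j', a1, rfl, a2⟩ | ⟨j', a1, a1', rfl, a2⟩ |
    ⟨a1, -, a2⟩ | ⟨a1, -, a2⟩
  · exact Or.inl ⟨j', a1, a2, h1⟩
  · exact Or.inr ⟨j', a1', a1, a2, h1⟩
  · exact absurd a2 (hne a1).1
  · exact absurd a2 (hne a1).2

theorem next_up {r j : ℕ} (hr : r < w.length) (hj : k ≤ j) (hj2 : j < 2 * k)
    (hne : (op w r).1 = true → j ≠ (op w r).2 ∧ j ≠ (op w r).2 + 1) :
    (∃ (j' : ℕ) (hj' : j' < k), Same w r j' j ∧
      col (wa (r + 1) j' ⟨hr, by omega⟩) = col (wa (r + 1) j ⟨hr, hj2⟩)) ∨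
    (∃ (j' : ℕ) (hj' : j' < 2 * k), k ≤ j' ∧ Same w r j' j ∧
      col (wa r j' ⟨hr.le, hj'⟩) = col (wa (r + 1) j ⟨hr, hj2⟩)) := by
  obtain ⟨⟨e, hea⟩, h1, h2⟩ := hc.nxt (wa (r + 1) j ⟨hr, hj2⟩)
  change (ends k w e).1 = (ends k w (Sum.inl (r + 1, j))).2 at h2
  rw [ends_up hj] at h2
  rcases tail_cases hv hea hr (by omega) h2 with ⟨j', a1, rfl, a2⟩ | ⟨j', a1, a1', rfl, a2⟩ |
    ⟨a1, -, a2⟩ | ⟨a1, -, a2⟩
  · exact Or.inl ⟨j', a1, a2, h1⟩
  · exact Or.inr ⟨j', a1', a1, a2, h1⟩
  · exact absurd a2 (hne a1).1
  · exact absurd a2 (hne a1).2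

/-- Wires that are not involved keep their colours. -/
theorem keep (hk : 0 < k) {r j : ℕ} (hr : r < w.length) (h1 : j ≠ (op w r).2)
    (h2 : j ≠ (op w r).2 + 1) : cs hk col (r + 1) j = cs hk col r j := by
  by_cases hj : j < 2 * k
  · rw [cs_eq hk ⟨hr, hj⟩, cs_eq hk ⟨hr.le, hj⟩]
    have hs : ∀ j', Same w r j' j → j' = j := by
      rintro j' (h | ⟨-, ⟨-, h⟩ | ⟨-, h⟩⟩)
      · exact h
      · exact absurd h h2
      · exact absurd h h1
    rcases Nat.lt_or_ge j k with hjk | hjk
    · rcases next_down hv hc hr hjk (fun _ => ⟨h1, h2⟩) with ⟨j', a1, a2, a3⟩ | ⟨j', a1, a1', a2, a3⟩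
      · obtain rfl := hs j' a2
        exact a3
      · obtain rfl := hs j' a2
        omega
    · rcases next_up hv hc hr hjk hj (fun _ => ⟨h1, h2⟩) with ⟨j', a1, a2, a3⟩ | ⟨j', a1, a1', a2, a3⟩
      · obtain rfl := hs j' a2
        omega
      · obtain rfl := hs j' a2
        exact a3.symm
  · unfold cs
    rw [dif_neg (by omega), dif_neg (by omega)]

theorem cs_inj_down (hk : 0 < k) {t i j : ℕ} (ht : t ≤ w.length) (hi : i < k) (hj : j < k)
    (h : cs hk col t i = cs hk col t j) : i = j := by
  rw [cs_eq hk ⟨ht, by omega⟩, cs_eq hk ⟨ht, by omega⟩] at h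
  exact inj_down hv hc ht hi hj h

theorem cs_inj_up (hk : 0 < k) {t i j : ℕ} (ht : t ≤ w.length) (hi : i < k) (hj : j < k)
    (h : cs hk col t (k + i) = cs hk col t (k + j)) : i = j := by
  rw [cs_eq hk ⟨ht, by omega⟩, cs_eq hk ⟨ht, by omega⟩] at h
  exact inj_up hv hc ht hi hj h

theorem cs_inj_up' (hk : 0 < k) {t i j : ℕ} (ht : t ≤ w.length) (hi : k ≤ i) (hi' : i < 2 * k)
    (hj : k ≤ j) (hj' : j < 2 * k) (h : cs hk col t i = cs hk col t j) : i = j := by
  have := cs_inj_up hv hc hk ht (i := i - k) (j := j - k) (by omega) (by omega)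
    (by rw [show k + (i - k) = i by omega, show k + (j - k) = j by omega]; exact h)
  omega

/-- Each row is an operation on the colours. -/
theorem step_row (hk : 0 < k) {r : ℕ} (hr : r < w.length) :
    Step k (op w r) (cs hk col r) (cs hk col (r + 1)) := by
  obtain ⟨hi, hi'⟩ := valid_op hv hr
  have hkeep := fun j => keep (j := j) hv hc hk hr
  set i := (op w r).2 with hidef
  unfold Step
  cases hb : (op w r).1
  · -- a common vertex
    simp only [Bool.false_eq_true, if_false]
    rw [← hidef]
    have hsi : ∀ j', Same w r j' i → j' = i ∨ j' = i + 1 := by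
      rintro j' (h | ⟨-, ⟨h, -⟩ | ⟨h, -⟩⟩)
      · exact Or.inl h
      · exact Or.inl h
      · exact Or.inr h
    have hsi' : ∀ j', Same w r j' (i + 1) → j' = i ∨ j' = i + 1 := by
      rintro j' (h | ⟨-, ⟨h, -⟩ | ⟨h, -⟩⟩)
      · exact Or.inr h
      · exact Or.inl h
      · exact Or.inr h
    by_cases hik : i + 1 = k
    · rw [if_pos hik]
      have e1 : cs hk col (r + 1) i = cs hk col r i := by
        obtain ⟨j, hj, h⟩ := surj_down hv hc hr.le (cs hk col (r + 1) i)
        rw [← cs_eq (col := col) hk] at h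
        by_cases hji : j = i
        · rw [← h, hji]
        · rw [← hkeep j hji (by omega)] at h
          exact absurd (cs_inj_down hv hc hk hr hj (by omega) h) hji
      have e2 : cs hk col (r + 1) (i + 1) = cs hk col r (i + 1) := by
        obtain ⟨j, hj, h⟩ := surj_up hv hc hr.le (cs hk col (r + 1) (i + 1))
        rw [← cs_eq (col := col) hk] at h
        by_cases hji : k + j = i + 1
        · rw [← h, hji]
        · rw [← hkeep (k + j) (by omega) hji] at h
          exact absurd (cs_inj_up' hv hc hk hr (by omega) (by omega) (by omega) (by omega) h) hji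
      constructor
      · funext j
        by_cases h1 : j = i
        · rw [h1, e1]
        · by_cases h2 : j = i + 1
          · rw [h2, e2]
          · exact hkeep j h1 h2
      · rw [← e2]
        intro he
        rw [cs_eq hk ⟨hr.le, by omega⟩, cs_eq hk ⟨hr, hi⟩] at he
        have := hc.hd_inj _ _ he (by
          change (ends k w (Sum.inl (r, i))).2 = (ends k w (Sum.inl (r + 1, i + 1))).2
          rw [ends_down (by omega), ends_up (by omega)]
          simp only
          rw [vx_mid hr, vx_mid hr]
          have : posn w r i = posn w r (i + 1) := by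
            rw [posn_eq]
            exact Or.inr ⟨hb, Or.inl ⟨rfl, rfl⟩⟩
          rw [this])
        have h2 := congrArg Subtype.val this
        simp only [wa, Sum.inl.injEq, Prod.mk.injEq] at h2
        omega
    · rw [if_neg hik]
      have hcase : (cs hk col (r + 1) i = cs hk col r i ∧
          cs hk col (r + 1) (i + 1) = cs hk col r (i + 1)) ∨
          (cs hk col (r + 1) i = cs hk col r (i + 1) ∧
          cs hk col (r + 1) (i + 1) = cs hk col r i) := by
        rcases Nat.lt_or_ge i k with hlt | hge
        · have m1 : cs hk col r i = cs hk col (r + 1) i ∨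
              cs hk col r i = cs hk col (r + 1) (i + 1) := by
            rcases next_down hv hc hr hlt (by simp [hb]) with ⟨j', a1, a2, a3⟩ |
              ⟨j', a1, a1', a2, a3⟩
            · rw [← cs_eq (col := col) hk, ← cs_eq (col := col) hk] at a3
              rcases hsi j' a2 with rfl | rfl
              · exact Or.inl a3.symm
              · exact Or.inr a3.symm
            · rcases hsi j' a2 with rfl | rfl <;> omega
          have m2 : cs hk col r (i + 1) = cs hk col (r + 1) i ∨
              cs hk col r (i + 1) = cs hk col (r + 1) (i + 1) := by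
            rcases next_down hv hc hr (show i + 1 < k by omega) (by simp [hb]) with
              ⟨j', a1, a2, a3⟩ | ⟨j', a1, a1', a2, a3⟩
            · rw [← cs_eq (col := col) hk, ← cs_eq (col := col) hk] at a3
              rcases hsi' j' a2 with rfl | rfl
              · exact Or.inl a3.symm
              · exact Or.inr a3.symm
            · rcases hsi' j' a2 with rfl | rfl <;> omega
          have m3 : cs hk col r i ≠ cs hk col r (i + 1) := fun h => by
            have := cs_inj_down hv hc hk hr.le hlt (by omega) h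
            omega
          rcases m1 with m1 | m1 <;> rcases m2 with m2 | m2
          · exact absurd (m1.trans m2.symm) m3
          · exact Or.inl ⟨m1.symm, m2.symm⟩
          · exact Or.inr ⟨m2.symm, m1.symm⟩
          · exact absurd (m1.trans m2.symm) m3
        · have m1 : cs hk col (r + 1) i = cs hk col r i ∨
              cs hk col (r + 1) i = cs hk col r (i + 1) := by
            rcases next_up hv hc hr hge (by omega) (by simp [hb]) with ⟨j', a1, a2, a3⟩ |
              ⟨j', a1, a1', a2, a3⟩
            · rcases hsi j' a2 with rfl | rfl <;> omega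
            · rw [← cs_eq (col := col) hk, ← cs_eq (col := col) hk] at a3
              rcases hsi j' a2 with rfl | rfl
              · exact Or.inl a3.symm
              · exact Or.inr a3.symm
          have m2 : cs hk col (r + 1) (i + 1) = cs hk col r i ∨
              cs hk col (r + 1) (i + 1) = cs hk col r (i + 1) := by
            rcases next_up hv hc hr (show k ≤ i + 1 by omega) hi (by simp [hb]) with
              ⟨j', a1, a2, a3⟩ | ⟨j', a1, a1', a2, a3⟩
            · rcases hsi' j' a2 with rfl | rfl <;> omega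
            · rw [← cs_eq (col := col) hk, ← cs_eq (col := col) hk] at a3
              rcases hsi' j' a2 with rfl | rfl
              · exact Or.inl a3.symm
              · exact Or.inr a3.symm
          have m3 : cs hk col (r + 1) i ≠ cs hk col (r + 1) (i + 1) := fun h => by
            have := cs_inj_up' hv hc hk hr hge (by omega) (by omega) hi h
            omega
          rcases m1 with m1 | m1 <;> rcases m2 with m2 | m2
          · exact absurd (m1.trans m2.symm) m3
          · exact Or.inl ⟨m1, m2⟩
          · exact Or.inr ⟨m1, m2⟩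
          · exact absurd (m1.trans m2.symm) m3
      rcases hcase with ⟨c1, c2⟩ | ⟨c1, c2⟩
      · left
        funext j
        by_cases h1 : j = i
        · rw [h1, c1]
        · by_cases h2 : j = i + 1
          · rw [h2, c2]
          · exact hkeep j h1 h2
      · right
        funext j
        by_cases h1 : j = i
        · rw [h1, c1, Function.comp_apply, swap_apply_left]
        · by_cases h2 : j = i + 1
          · rw [h2, c2, Function.comp_apply, swap_apply_right]
          · rw [Function.comp_apply, swap_apply_of_ne_of_ne h1 h2]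
            exact hkeep j h1 h2
  · -- a crossing
    simp only [if_true]
    have hik : i + 1 ≠ k := hi' hb
    have hg : (Sum.inr (r, true) : Arc) ∈ arcs k w := mem_arcs_inr.2 ⟨hr, hb⟩
    have hh : (Sum.inr (r, false) : Arc) ∈ arcs k w := mem_arcs_inr.2 ⟨hr, hb⟩
    have hp : vx k w (r + 1) i ≠ 0 := by rw [vx_mid hr]; omega
    have hq : vx k w (r + 1) (i + 1) ≠ 0 := by rw [vx_mid hr]; omega
    have hsame : ∀ j j', Same w r j j' → j = j' := by
      rintro j j' (h | ⟨h, -⟩)
      · exact h
      · rw [hb] at h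
        simp at h
    have hcase : cs hk col (r + 1) i = cs hk col r (i + 1) ∧
          cs hk col (r + 1) (i + 1) = cs hk col r i := by
      rw [cs_eq hk ⟨hr, by omega⟩, cs_eq hk ⟨hr, hi⟩, cs_eq hk ⟨hr.le, hi⟩,
        cs_eq hk ⟨hr.le, by omega⟩]
      rcases Nat.lt_or_ge i k with hlt | hge
      · have := digon hc (g := ⟨_, hg⟩) (h := ⟨_, hh⟩) (x := wa r i ⟨hr.le, by omega⟩)
          (z := wa r (i + 1) ⟨hr.le, hi⟩) (y := wa (r + 1) i ⟨hr, by omega⟩)
          (v := wa (r + 1) (i + 1) ⟨hr, hi⟩) hp hq rfl rfl rfl rfl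
          (by change (ends k w (Sum.inl (r, i))).2 = _; rw [ends_down hlt])
          (by change (ends k w (Sum.inl (r, i + 1))).2 = _; rw [ends_down (by omega)])
          (fun h => by have := congrArg Subtype.val h; simp [wa] at this)
          (fun h => by have := congrArg Subtype.val h; simp [wa] at this)
          (fun e he => by
            rcases tail_cases hv e.2 hr (by omega) he with ⟨j', a1, a2, a3⟩ |
              ⟨j', a1, a1', a2, a3⟩ | ⟨a1, a2, a3⟩ | ⟨a1, a2, a3⟩
            · left
              obtain rfl := hsame _ _ a3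
              exact Subtype.ext a2
            · have := hsame _ _ a3
              omega
            · right
              exact Subtype.ext a2
            · omega)
          (fun e he => by
            rcases tail_cases hv e.2 hr (by omega) he with ⟨j', a1, a2, a3⟩ |
              ⟨j', a1, a1', a2, a3⟩ | ⟨a1, a2, a3⟩ | ⟨a1, a2, a3⟩
            · left
              obtain rfl := hsame _ _ a3
              exact Subtype.ext a2
            · have := hsame _ _ a3
              omega
            · omega
            · right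
              exact Subtype.ext a2)
        exact ⟨this.2, this.1⟩
      · have := digon hc (g := ⟨_, hg⟩) (h := ⟨_, hh⟩) (x := wa (r + 1) i ⟨hr, by omega⟩)
          (z := wa (r + 1) (i + 1) ⟨hr, hi⟩) (y := wa r i ⟨hr.le, by omega⟩)
          (v := wa r (i + 1) ⟨hr.le, hi⟩) hp hq rfl rfl rfl rfl
          (by change (ends k w (Sum.inl (r + 1, i))).2 = _; rw [ends_up hge])
          (by change (ends k w (Sum.inl (r + 1, i + 1))).2 = _; rw [ends_up (by omega)])
          (fun h => by have := congrArg Subtype.val h; simp [wa] at this)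
          (fun h => by have := congrArg Subtype.val h; simp [wa] at this)
          (fun e he => by
            rcases tail_cases hv e.2 hr (by omega) he with ⟨j', a1, a2, a3⟩ |
              ⟨j', a1, a1', a2, a3⟩ | ⟨a1, a2, a3⟩ | ⟨a1, a2, a3⟩
            · have := hsame _ _ a3
              omega
            · left
              obtain rfl := hsame _ _ a3
              exact Subtype.ext a2
            · right
              exact Subtype.ext a2
            · omega)
          (fun e he => by
            rcases tail_cases hv e.2 hr (by omega) he with ⟨j', a1, a2, a3⟩ |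
              ⟨j', a1, a1', a2, a3⟩ | ⟨a1, a2, a3⟩ | ⟨a1, a2, a3⟩
            · have := hsame _ _ a3
              omega
            · left
              obtain rfl := hsame _ _ a3
              exact Subtype.ext a2
            · omega
            · right
              exact Subtype.ext a2)
        exact ⟨this.1.symm, this.2.symm⟩
    rw [← hidef]
    funext j
    by_cases h1 : j = i
    · rw [h1, hcase.1, Function.comp_apply, swap_apply_left]
    · by_cases h2 : j = i + 1
      · rw [h2, hcase.2, Function.comp_apply, swap_apply_right]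
      · rw [Function.comp_apply, swap_apply_of_ne_of_ne h1 h2]
        exact hkeep j h1 h2

end Fwd

/-- **From a decomposition with at most `k` cycles to a run.** -/
theorem run_of_decomposition {k : ℕ} (hk : 0 < k) {w : List (Bool × ℕ)} (hv : Valid k w)
    (h : CycleNumberLE (dig k w) k) :
    ∃ s s' : ℕ → Fin k, ((∀ p q, p < k → q < k → s p = s q → p = q) ∧
      ∀ p q, p < k → q < k → s (k + p) = s (k + q) → p = q) ∧ Run k w s s' := by
  obtain ⟨P, hP, hlen⟩ := h
  obtain ⟨col0, -, hc0⟩ := exists_col (nodup_arcs k w) hP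
  let col : {a // a ∈ arcs k w} → Fin k := fun a => Fin.castLE hlen (col0 a)
  have hcc : ∀ a b, col a = col b ↔ col0 a = col0 b := by
    intro a b
    simp only [col, Fin.ext_iff]
    exact Iff.rfl
  have hc : CycCol (fun a : {a // a ∈ arcs k w} => ends k w a) col := by
    refine ⟨fun e e' h1 h2 => hc0.tl_inj e e' ((hcc _ _).1 h1) h2,
      fun e e' h1 h2 => hc0.hd_inj e e' ((hcc _ _).1 h1) h2, fun e => ?_, fun S e e' h1 h2 h3 => ?_⟩
    · obtain ⟨e', h1, h2⟩ := hc0.nxt e
      exact ⟨e', (hcc _ _).2 h1, h2⟩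
    · obtain ⟨e'', g1, g2, g3⟩ := hc0.cut S e e' ((hcc _ _).1 h1) h2 h3
      exact ⟨e'', (hcc _ _).2 g1, g2, g3⟩
  refine ⟨cs hk col 0, cs hk col w.length, ⟨?_, ?_⟩, ?_⟩
  · intro p q hp hq h
    exact cs_inj_down hv hc hk (Nat.zero_le _) hp hq h
  · intro p q hp hq h
    exact cs_inj_up hv hc hk (Nat.zero_le _) hp hq h
  · exact run_of_seq w _ fun r hr => step_row hv hc hk hr

end Pool.Agent.H675.DCD
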