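import Mathlib

/-!
# Words of crossings and meetings of wires

There are `2 k` wires, at the positions `0, …, 2 k - 1`. A state gives the colour of the wire at
each position. An operation `(true, i)` exchanges the wires at `i` and `i + 1`. An operation
`(false, i)` with `i + 1 ≠ k` exchanges them or does not exchange them. The operation
`(false, k - 1)` changes nothing, but it can only be done if the wires at `k - 1` and `k` have
different colours.
-/

namespace Pool.Agent.H675.DCD

open Equiv

variable {C : Type*}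

/-- One operation. -/
def Step (k : ℕ) (o : Bool × ℕ) (c c' : ℕ → C) : Prop :=
  if o.1 = true then c' = c ∘ swap o.2 (o.2 + 1)
  else if o.2 + 1 = k then c' = c ∧ c o.2 ≠ c (o.2 + 1)
  else c' = c ∨ c' = c ∘ swap o.2 (o.2 + 1)

/-- A sequence of operations. -/
def Run (k : ℕ) : List (Bool × ℕ) → (ℕ → C) → (ℕ → C) → Prop
  | [], c, c' => c' = c
  | o :: w, c, c' => ∃ c1, Step k o c c1 ∧ Run k w c1 c'

theorem run_append (k : ℕ) : ∀ (w w' : List (Bool × ℕ)) (c c' : ℕ → C),
    Run k (w ++ w') c c' ↔ ∃ m, Run k w c m ∧ Run k w' m c'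
  | [], w', c, c' => by simp [Run]
  | o :: w, w', c, c' => by
    simp only [List.cons_append, Run, run_append k w w']
    constructor
    · rintro ⟨c1, h1, m, h2, h3⟩
      exact ⟨m, ⟨c1, h1, h2⟩, h3⟩
    · rintro ⟨m, ⟨c1, h1, h2⟩, h3⟩
      exact ⟨c1, h1, m, h2, h3⟩

/-- The permutation of a list of crossings. -/
def perm (L : List ℕ) : Perm ℕ := (L.map fun i => swap i (i + 1)).prod

@[simp] theorem perm_nil : perm [] = 1 := rfl

theorem perm_cons (i : ℕ) (L : List ℕ) : perm (i :: L) = swap i (i + 1) * perm L := by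
  simp [perm]

theorem perm_append (L L' : List ℕ) : perm (L ++ L') = perm L * perm L' := by
  simp [perm]

theorem perm_reverse (L : List ℕ) : perm L.reverse = (perm L)⁻¹ := by
  induction L with
  | nil => simp
  | cons i L ih =>
    rw [List.reverse_cons, perm_append, ih, perm_cons, perm_cons, mul_inv_rev, perm_nil, mul_one,
      swap_inv]

theorem run_cross (k : ℕ) : ∀ (L : List ℕ) (c c' : ℕ → C),
    Run k (L.map fun i => (true, i)) c c' ↔ c' = c ∘ perm L
  | [], c, c' => by simp [Run]
  | i :: L, c, c' => by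
    simp only [List.map_cons, Run, run_cross k L, Step, if_true, exists_eq_left, perm_cons]
    rfl

/-- Crossings, one meeting, and the crossings in the reverse order. -/
def conjW (L : List ℕ) (i : ℕ) : List (Bool × ℕ) :=
  (L.map fun i => (true, i)) ++ (false, i) :: (L.reverse.map fun i => (true, i))

theorem run_conj (k : ℕ) (L : List ℕ) (i : ℕ) (c c' : ℕ → C) :
    Run k (conjW L i) c c' ↔ ∃ m, Step k (false, i) (c ∘ perm L) m ∧ c' = m ∘ ⇑(perm L)⁻¹ := by
  unfold conjW
  rw [run_append]
  simp only [run_cross, Run, exists_eq_left, perm_reverse]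

theorem run_conj_touch {k : ℕ} (L : List ℕ) (i : ℕ) (hi : i + 1 = k) (c c' : ℕ → C) :
    Run k (conjW L i) c c' ↔ c' = c ∧ c (perm L i) ≠ c (perm L (i + 1)) := by
  rw [run_conj]
  simp only [Step, Bool.false_eq_true, if_false, if_pos hi]
  constructor
  · rintro ⟨m, ⟨rfl, h⟩, rfl⟩
    refine ⟨?_, h⟩
    funext x
    simp
  · rintro ⟨rfl, h⟩
    refine ⟨_, ⟨rfl, h⟩, ?_⟩
    funext x
    simp

theorem run_conj_swap {k : ℕ} (L : List ℕ) (i : ℕ) (hi : i + 1 ≠ k) (c c' : ℕ → C) :
    Run k (conjW L i) c c' ↔ c' = c ∨ c' = c ∘ swap (perm L i) (perm L (i + 1)) := by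
  rw [run_conj]
  simp only [Step, Bool.false_eq_true, if_false, if_neg hi]
  have key : (perm L * swap i (i + 1)) * (perm L)⁻¹ = swap (perm L i) (perm L (i + 1)) := by
    rw [Equiv.mul_swap_eq_swap_mul, mul_assoc, mul_inv_cancel, mul_one]
  constructor
  · rintro ⟨m, rfl | rfl, rfl⟩
    · left
      funext x
      simp
    · right
      rw [← key]
      rfl
  · rintro (rfl | rfl)
    · refine ⟨_, Or.inl rfl, ?_⟩
      funext x
      simp
    · refine ⟨_, Or.inr rfl, ?_⟩
      rw [← key]
      rfl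

/-- The crossings that bring the wire at `p` to `p + n`. -/
def mv (p n : ℕ) : List ℕ := (List.range n).map fun i => p + i

theorem mv_succ (p n : ℕ) : mv p (n + 1) = mv p n ++ [p + n] := by
  simp [mv, List.range_succ]

theorem mem_mv {p n i : ℕ} : i ∈ mv p n ↔ p ≤ i ∧ i < p + n := by
  simp only [mv, List.mem_map, List.mem_range]
  constructor
  · rintro ⟨j, hj, rfl⟩; omega
  · rintro ⟨h1, h2⟩; exact ⟨i - p, by omega, by omega⟩

theorem perm_mv_last (p : ℕ) : ∀ n, perm (mv p n) (p + n) = p
  | 0 => by simp [mv]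
  | n + 1 => by
    rw [mv_succ, perm_append, Perm.mul_apply, perm_cons, perm_nil, mul_one,
      show p + (n + 1) = p + n + 1 by omega, swap_apply_right, perm_mv_last p n]

theorem perm_fix {L : List ℕ} {x : ℕ} (h : ∀ i ∈ L, x ≠ i ∧ x ≠ i + 1) : perm L x = x := by
  induction L with
  | nil => rfl
  | cons i L ih =>
    rw [perm_cons, Perm.mul_apply, ih fun j hj => h j (List.mem_cons_of_mem _ hj)]
    have := h i List.mem_cons_self
    exact swap_apply_of_ne_of_ne this.1 this.2

theorem perm_mv_rev (p n : ℕ) : perm (mv p n).reverse p = p + n := by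
  rw [perm_reverse, Perm.inv_eq_iff_eq, perm_mv_last]

/-- The word that tests that the wires at `p < k` and at `k + q` have different colours. -/
def testW (k p q : ℕ) : List (Bool × ℕ) :=
  conjW ((mv k q).reverse ++ mv p (k - 1 - p)) (k - 1)

theorem run_test {k p q : ℕ} (hp : p < k) (c c' : ℕ → C) :
    Run k (testW k p q) c c' ↔ c' = c ∧ c p ≠ c (k + q) := by
  unfold testW
  rw [run_conj_touch _ _ (by omega)]
  have h1 : perm ((mv k q).reverse ++ mv p (k - 1 - p)) (k - 1) = p := by
    rw [perm_append, Perm.mul_apply]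
    have := perm_mv_last p (k - 1 - p)
    rw [show p + (k - 1 - p) = k - 1 by omega] at this
    rw [this]
    apply perm_fix
    intro i hi
    rw [List.mem_reverse, mem_mv] at hi
    omega
  have h2 : perm ((mv k q).reverse ++ mv p (k - 1 - p)) (k - 1 + 1) = k + q := by
    rw [perm_append, Perm.mul_apply, show k - 1 + 1 = k by omega]
    have : perm (mv p (k - 1 - p)) k = k := by
      apply perm_fix
      intro i hi
      rw [mem_mv] at hi
      omega
    rw [this, perm_mv_rev]
  rw [h1, h2]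

/-- The word that exchanges or does not exchange the wires at `p < p' < k`. -/
def swapW (p p' : ℕ) : List (Bool × ℕ) := conjW (mv p (p' - 1 - p)) (p' - 1)

theorem run_swap {k p p' : ℕ} (h : p < p') (h' : p' < k) (c c' : ℕ → C) :
    Run k (swapW p p') c c' ↔ c' = c ∨ c' = c ∘ swap p p' := by
  unfold swapW
  rw [run_conj_swap _ _ (by omega)]
  have h1 : perm (mv p (p' - 1 - p)) (p' - 1) = p := by
    have := perm_mv_last p (p' - 1 - p)
    rwa [show p + (p' - 1 - p) = p' - 1 by omega] at this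
  have h2 : perm (mv p (p' - 1 - p)) (p' - 1 + 1) = p' := by
    rw [show p' - 1 + 1 = p' by omega]
    apply perm_fix
    intro i hi
    rw [mem_mv] at hi
    omega
  rw [h1, h2]

/-- A list of tests. -/
def testsW (k : ℕ) (l : List (ℕ × ℕ)) : List (Bool × ℕ) := l.flatMap fun x => testW k x.1 x.2

theorem run_tests {k : ℕ} : ∀ (l : List (ℕ × ℕ)) (_ : ∀ x ∈ l, x.1 < k) (c c' : ℕ → C),
    Run k (testsW k l) c c' ↔ c' = c ∧ ∀ x ∈ l, c x.1 ≠ c (k + x.2)
  | [], _, c, c' => by simp [testsW, Run]
  | x :: l, h, c, c' => by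
    have ih := run_tests l (fun y hy => h y (List.mem_cons_of_mem _ hy))
    unfold testsW at ih ⊢
    rw [List.flatMap_cons, run_append]
    simp only [run_test (h x List.mem_cons_self), ih, List.forall_mem_cons]
    constructor
    · rintro ⟨m, ⟨rfl, h1⟩, rfl, h2⟩
      exact ⟨rfl, h1, h2⟩
    · rintro ⟨rfl, h1, h2⟩
      exact ⟨c', ⟨rfl, h1⟩, rfl, h2⟩

/-- Admissible words. -/
def Valid (k : ℕ) (w : List (Bool × ℕ)) : Prop :=
  ∀ o ∈ w, o.2 + 1 < 2 * k ∧ (o.1 = true → o.2 + 1 ≠ k)

theorem Valid.append {k : ℕ} {w w' : List (Bool × ℕ)} (h : Valid k w) (h' : Valid k w') :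
    Valid k (w ++ w') := by
  intro o ho
  rcases List.mem_append.1 ho with ho | ho
  · exact h o ho
  · exact h' o ho

theorem valid_flatMap {k : ℕ} {α : Type*} {l : List α} {f : α → List (Bool × ℕ)}
    (h : ∀ a ∈ l, Valid k (f a)) : Valid k (l.flatMap f) := by
  intro o ho
  obtain ⟨a, ha, hoa⟩ := List.mem_flatMap.1 ho
  exact h a ha o hoa

theorem valid_conj {k : ℕ} {L : List ℕ} {i : ℕ} (hL : ∀ j ∈ L, j + 1 < 2 * k ∧ j + 1 ≠ k)
    (hi : i + 1 < 2 * k) : Valid k (conjW L i) := by
  intro o ho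
  simp only [conjW, List.mem_append, List.mem_map, List.mem_cons, List.mem_reverse] at ho
  rcases ho with ⟨j, hj, rfl⟩ | rfl | ⟨j, hj, rfl⟩
  · exact ⟨(hL j hj).1, fun _ => (hL j hj).2⟩
  · exact ⟨hi, fun h => by simp at h⟩
  · exact ⟨(hL j hj).1, fun _ => (hL j hj).2⟩

theorem valid_test {k p q : ℕ} (hp : p < k) (hq : q < k) : Valid k (testW k p q) := by
  apply valid_conj
  · intro j hj
    rw [List.mem_append, List.mem_reverse, mem_mv, mem_mv] at hj
    omega
  · omega

theorem valid_swap {k p p' : ℕ} (h : p < p') (h' : p' < k) : Valid k (swapW p p') := by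
  apply valid_conj
  · intro j hj
    rw [mem_mv] at hj
    omega
  · omega

theorem valid_tests {k : ℕ} {l : List (ℕ × ℕ)} (h : ∀ x ∈ l, x.1 < k ∧ x.2 < k) :
    Valid k (testsW k l) :=
  valid_flatMap fun x hx => valid_test (h x hx).1 (h x hx).2

end Pool.Agent.H675.DCD
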