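import Pool.Agent.H675.DCD.Cyc
import Pool.Agent.H675.DCD.Word

/-!
# The layered digraph of a word

Level `0` is the vertex `0`, level `T + 1` is the vertex `1` (`T` is the length of the word). The
first `k` wires go down (from level `t` to level `t + 1`), the other `k` wires go up. In the row
of an operation `(false, i)` the wires `i` and `i + 1` have a common vertex, in the row of an
operation `(true, i)` there are two opposite arcs between the vertices of the wires `i`, `i + 1`.
-/

namespace Pool.Agent.H675.DCD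

open Equiv

/-- The operation of row `r`. -/
def op (w : List (Bool × ℕ)) (r : ℕ) : Bool × ℕ := w.getD r (true, 0)

/-- The place of the wire `j` in row `r`. -/
def posn (w : List (Bool × ℕ)) (r j : ℕ) : ℕ :=
  if (op w r).1 = false ∧ j = (op w r).2 + 1 then (op w r).2 else j

/-- The vertex of wire `j` at level `t`. -/
def vx (k : ℕ) (w : List (Bool × ℕ)) (t j : ℕ) : ℕ :=
  if t = 0 then 0 else if t = w.length + 1 then 1 else 2 + ((t - 1) * (2 * k) + posn w (t - 1) j)

/-- `Sum.inl (t, j)`: the arc of wire `j` between the levels `t` and `t + 1`; `Sum.inr (r, b)`: the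
two additional arcs of row `r`. -/
abbrev Arc : Type := (ℕ × ℕ) ⊕ (ℕ × Bool)

/-- Tail and head of an arc. -/
def ends (k : ℕ) (w : List (Bool × ℕ)) : Arc → ℕ × ℕ :=
  Sum.elim
    (fun x => if x.2 < k then (vx k w x.1 x.2, vx k w (x.1 + 1) x.2)
      else (vx k w (x.1 + 1) x.2, vx k w x.1 x.2))
    (fun y => if y.2 = true then (vx k w (y.1 + 1) (op w y.1).2, vx k w (y.1 + 1) ((op w y.1).2 + 1))
      else (vx k w (y.1 + 1) ((op w y.1).2 + 1), vx k w (y.1 + 1) (op w y.1).2))

/-- The list of all arcs. -/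
def arcs (k : ℕ) (w : List (Bool × ℕ)) : List Arc :=
  (List.product (List.range (w.length + 1)) (List.range (2 * k))).map Sum.inl ++
    (List.product ((List.range w.length).filter fun r => (op w r).1) [true, false]).map Sum.inr

/-- The digraph of a word. -/
def dig (k : ℕ) (w : List (Bool × ℕ)) : Dig := (arcs k w).map (ends k w)

theorem mem_arcs_inl {k : ℕ} {w : List (Bool × ℕ)} {t j : ℕ} :
    (Sum.inl (t, j) : Arc) ∈ arcs k w ↔ t ≤ w.length ∧ j < 2 * k := by
  simp only [arcs, List.mem_append, List.mem_map, Sum.inl.injEq, exists_eq_right, reduceCtorEq,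
    and_false, exists_false, or_false]
  rw [List.pair_mem_product]
  simp only [List.mem_range]
  omega

theorem mem_arcs_inr {k : ℕ} {w : List (Bool × ℕ)} {r : ℕ} {b : Bool} :
    (Sum.inr (r, b) : Arc) ∈ arcs k w ↔ r < w.length ∧ (op w r).1 = true := by
  simp only [arcs, List.mem_append, List.mem_map, Sum.inr.injEq, exists_eq_right, reduceCtorEq,
    and_false, exists_false, false_or]
  rw [List.pair_mem_product]
  simp

theorem nodup_arcs (k : ℕ) (w : List (Bool × ℕ)) : (arcs k w).Nodup := by
  apply List.Nodup.append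
  · exact (List.nodup_range.product List.nodup_range).map Sum.inl_injective
  · exact ((List.nodup_range.filter _).product (by simp)).map Sum.inr_injective
  · intro a h1 h2
    rw [List.mem_map] at h1 h2
    obtain ⟨x, -, rfl⟩ := h1
    obtain ⟨y, -, h⟩ := h2
    simp at h

theorem valid_op {k : ℕ} {w : List (Bool × ℕ)} (hv : Valid k w) {r : ℕ} (hr : r < w.length) :
    (op w r).2 + 1 < 2 * k ∧ ((op w r).1 = true → (op w r).2 + 1 ≠ k) := by
  have : op w r ∈ w := by
    unfold op
    rw [List.getD_eq_getElem _ _ hr]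
    exact List.getElem_mem hr
  exact hv _ this

theorem posn_lt {k : ℕ} {w : List (Bool × ℕ)} (hv : Valid k w) {r j : ℕ} (hr : r < w.length)
    (hj : j < 2 * k) : posn w r j < 2 * k := by
  have := valid_op hv hr
  unfold posn
  split <;> omega

theorem posn_eq {w : List (Bool × ℕ)} {r j j' : ℕ} : posn w r j = posn w r j' ↔
    j = j' ∨ ((op w r).1 = false ∧ ((j = (op w r).2 ∧ j' = (op w r).2 + 1) ∨
      (j = (op w r).2 + 1 ∧ j' = (op w r).2))) := by
  unfold posn
  cases (op w r).1
  · simp only [true_and]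
    split_ifs <;> omega
  · simp

theorem vx_zero (k : ℕ) (w : List (Bool × ℕ)) (j : ℕ) : vx k w 0 j = 0 := rfl

theorem vx_last (k : ℕ) (w : List (Bool × ℕ)) (j : ℕ) : vx k w (w.length + 1) j = 1 := by
  simp [vx]

theorem vx_mid {k : ℕ} {w : List (Bool × ℕ)} {r j : ℕ} (hr : r < w.length) :
    vx k w (r + 1) j = 2 + (r * (2 * k) + posn w r j) := by
  unfold vx
  rw [if_neg (by omega), if_neg (by omega)]
  rfl

/-- When two vertices agree. -/
theorem vx_eq {k : ℕ} {w : List (Bool × ℕ)} (hv : Valid k w) {t t' j j' : ℕ}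
    (ht : t ≤ w.length + 1) (ht' : t' ≤ w.length + 1) (hj : j < 2 * k) (hj' : j' < 2 * k)
    (h : vx k w t j = vx k w t' j') :
    t = t' ∧ (t = 0 ∨ t = w.length + 1 ∨ posn w (t - 1) j = posn w (t - 1) j') := by
  unfold vx at h
  by_cases h0 : t = 0
  · subst h0
    simp only [if_true] at h
    by_cases h0' : t' = 0
    · exact ⟨h0'.symm, Or.inl rfl⟩
    · rw [if_neg h0'] at h
      split_ifs at h; omega
  · rw [if_neg h0] at h
    by_cases h1 : t = w.length + 1
    · rw [if_pos h1] at h
      split_ifs at h with h2 h3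
      · exact ⟨by omega, Or.inr (Or.inl h1)⟩
      · omega
    · rw [if_neg h1] at h
      split_ifs at h with h2 h3
      · omega
      · omega
      · have hp := posn_lt hv (show t - 1 < w.length by omega) hj
        have hp' := posn_lt hv (show t' - 1 < w.length by omega) hj'
        have h4 : (t - 1) * (2 * k) + posn w (t - 1) j = (t' - 1) * (2 * k) + posn w (t' - 1) j' := by
          omega
        have h5 : t - 1 = t' - 1 := by
          have e1 : ((t - 1) * (2 * k) + posn w (t - 1) j) / (2 * k) = t - 1 := by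
            rw [mul_comm, Nat.mul_add_div (by omega), Nat.div_eq_of_lt hp, add_zero]
          have e2 : ((t' - 1) * (2 * k) + posn w (t' - 1) j') / (2 * k) = t' - 1 := by
            rw [mul_comm, Nat.mul_add_div (by omega), Nat.div_eq_of_lt hp', add_zero]
          rw [← e1, ← e2, h4]
        rw [← h5] at h4
        exact ⟨by omega, Or.inr (Or.inr (by omega))⟩

/-- Level and wire of the tail. -/
def te (k : ℕ) (w : List (Bool × ℕ)) : Arc → ℕ × ℕ :=
  Sum.elim (fun x => if x.2 < k then (x.1, x.2) else (x.1 + 1, x.2))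
    (fun y => if y.2 = true then (y.1 + 1, (op w y.1).2) else (y.1 + 1, (op w y.1).2 + 1))

/-- Level and wire of the head. -/
def he (k : ℕ) (w : List (Bool × ℕ)) : Arc → ℕ × ℕ :=
  Sum.elim (fun x => if x.2 < k then (x.1 + 1, x.2) else (x.1, x.2))
    (fun y => if y.2 = true then (y.1 + 1, (op w y.1).2 + 1) else (y.1 + 1, (op w y.1).2))

theorem ends_fst (k : ℕ) (w : List (Bool × ℕ)) (a : Arc) :
    (ends k w a).1 = vx k w (te k w a).1 (te k w a).2 := by
  rcases a with ⟨t, j⟩ | ⟨r, b⟩
  · simp only [ends, te, Sum.elim_inl]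
    split_ifs <;> rfl
  · simp only [ends, te, Sum.elim_inr]
    split_ifs <;> rfl

theorem ends_snd (k : ℕ) (w : List (Bool × ℕ)) (a : Arc) :
    (ends k w a).2 = vx k w (he k w a).1 (he k w a).2 := by
  rcases a with ⟨t, j⟩ | ⟨r, b⟩
  · simp only [ends, he, Sum.elim_inl]
    split_ifs <;> rfl
  · simp only [ends, he, Sum.elim_inr]
    split_ifs <;> rfl

theorem te_bound {k : ℕ} {w : List (Bool × ℕ)} (hv : Valid k w) {a : Arc} (ha : a ∈ arcs k w) :
    (te k w a).1 ≤ w.length + 1 ∧ (te k w a).2 < 2 * k := by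
  rcases a with ⟨t, j⟩ | ⟨r, b⟩
  · rw [mem_arcs_inl] at ha
    simp only [te, Sum.elim_inl]
    split_ifs <;> constructor <;> simp only <;> omega
  · rw [mem_arcs_inr] at ha
    have := valid_op hv ha.1
    simp only [te, Sum.elim_inr]
    split_ifs <;> constructor <;> simp only <;> omega

theorem he_bound {k : ℕ} {w : List (Bool × ℕ)} (hv : Valid k w) {a : Arc} (ha : a ∈ arcs k w) :
    (he k w a).1 ≤ w.length + 1 ∧ (he k w a).2 < 2 * k := by
  rcases a with ⟨t, j⟩ | ⟨r, b⟩
  · rw [mem_arcs_inl] at ha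
    simp only [he, Sum.elim_inl]
    split_ifs <;> constructor <;> simp only <;> omega
  · rw [mem_arcs_inr] at ha
    have := valid_op hv ha.1
    simp only [he, Sum.elim_inr]
    split_ifs <;> constructor <;> simp only <;> omega

/-- Two wires have the same vertex in a row. -/
def Same (w : List (Bool × ℕ)) (r j j' : ℕ) : Prop :=
  j = j' ∨ ((op w r).1 = false ∧ ((j = (op w r).2 ∧ j' = (op w r).2 + 1) ∨
      (j = (op w r).2 + 1 ∧ j' = (op w r).2)))

/-- The arcs whose tail is a given vertex of a row. -/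
theorem tail_cases {k : ℕ} {w : List (Bool × ℕ)} (hv : Valid k w) {a : Arc} (ha : a ∈ arcs k w)
    {r j : ℕ} (hr : r < w.length) (hj : j < 2 * k) (h : (ends k w a).1 = vx k w (r + 1) j) :
    (∃ j', j' < k ∧ a = Sum.inl (r + 1, j') ∧ Same w r j' j) ∨
    (∃ j', k ≤ j' ∧ j' < 2 * k ∧ a = Sum.inl (r, j') ∧ Same w r j' j) ∨
    ((op w r).1 = true ∧ a = Sum.inr (r, true) ∧ j = (op w r).2) ∨
    ((op w r).1 = true ∧ a = Sum.inr (r, false) ∧ j = (op w r).2 + 1) := by
  rw [ends_fst] at h
  have hb := te_bound hv ha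
  obtain ⟨h1, h2⟩ := vx_eq hv hb.1 (show r + 1 ≤ w.length + 1 by omega) hb.2 hj h
  have h3 : posn w r (te k w a).2 = posn w r j := by
    rw [h1] at h2
    rcases h2 with h2 | h2 | h2
    · omega
    · omega
    · simpa using h2
  rw [posn_eq] at h3
  rcases a with ⟨t, j'⟩ | ⟨r', b⟩
  · rw [mem_arcs_inl] at ha
    simp only [te, Sum.elim_inl] at h1 h3
    by_cases hj' : j' < k
    · rw [if_pos hj'] at h1 h3
      simp only at h1 h3
      subst h1
      exact Or.inl ⟨j', hj', rfl, h3⟩
    · rw [if_neg hj'] at h1 h3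
      simp only at h1 h3
      obtain rfl : t = r := by omega
      exact Or.inr (Or.inl ⟨j', by omega, ha.2, rfl, h3⟩)
  · rw [mem_arcs_inr] at ha
    simp only [te, Sum.elim_inr] at h1 h3
    cases b
    · simp only [Bool.false_eq_true, if_false] at h1 h3
      obtain rfl : r' = r := by omega
      rw [ha.2] at h3
      simp only [Bool.true_eq_false, false_and, or_false] at h3
      exact Or.inr (Or.inr (Or.inr ⟨ha.2, rfl, h3.symm⟩))
    · simp only [if_true] at h1 h3
      obtain rfl : r' = r := by omega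
      rw [ha.2] at h3
      simp only [Bool.true_eq_false, false_and, or_false] at h3
      exact Or.inr (Or.inr (Or.inl ⟨ha.2, rfl, h3.symm⟩))

/-- The arcs whose head is a given vertex of a row. -/
theorem head_cases {k : ℕ} {w : List (Bool × ℕ)} (hv : Valid k w) {a : Arc} (ha : a ∈ arcs k w)
    {r j : ℕ} (hr : r < w.length) (hj : j < 2 * k) (h : (ends k w a).2 = vx k w (r + 1) j) :
    (∃ j', j' < k ∧ a = Sum.inl (r, j') ∧ Same w r j' j) ∨
    (∃ j', k ≤ j' ∧ j' < 2 * k ∧ a = Sum.inl (r + 1, j') ∧ Same w r j' j) ∨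
    ((op w r).1 = true ∧ a = Sum.inr (r, true) ∧ j = (op w r).2 + 1) ∨
    ((op w r).1 = true ∧ a = Sum.inr (r, false) ∧ j = (op w r).2) := by
  rw [ends_snd] at h
  have hb := he_bound hv ha
  obtain ⟨h1, h2⟩ := vx_eq hv hb.1 (show r + 1 ≤ w.length + 1 by omega) hb.2 hj h
  have h3 : posn w r (he k w a).2 = posn w r j := by
    rw [h1] at h2
    rcases h2 with h2 | h2 | h2
    · omega
    · omega
    · simpa using h2
  rw [posn_eq] at h3
  rcases a with ⟨t, j'⟩ | ⟨r', b⟩
  · rw [mem_arcs_inl] at ha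
    simp only [he, Sum.elim_inl] at h1 h3
    by_cases hj' : j' < k
    · rw [if_pos hj'] at h1 h3
      simp only at h1 h3
      obtain rfl : t = r := by omega
      exact Or.inl ⟨j', hj', rfl, h3⟩
    · rw [if_neg hj'] at h1 h3
      simp only at h1 h3
      subst h1
      exact Or.inr (Or.inl ⟨j', by omega, ha.2, rfl, h3⟩)
  · rw [mem_arcs_inr] at ha
    simp only [he, Sum.elim_inr] at h1 h3
    cases b
    · simp only [Bool.false_eq_true, if_false] at h1 h3
      obtain rfl : r' = r := by omega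
      rw [ha.2] at h3
      simp only [Bool.true_eq_false, false_and, or_false] at h3
      exact Or.inr (Or.inr (Or.inr ⟨ha.2, rfl, h3.symm⟩))
    · simp only [if_true] at h1 h3
      obtain rfl : r' = r := by omega
      rw [ha.2] at h3
      simp only [Bool.true_eq_false, false_and, or_false] at h3
      exact Or.inr (Or.inr (Or.inl ⟨ha.2, rfl, h3.symm⟩))

/-- The arcs whose tail is the first vertex. -/
theorem tail_zero {k : ℕ} {w : List (Bool × ℕ)} (hv : Valid k w) {a : Arc} (ha : a ∈ arcs k w)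
    (h : (ends k w a).1 = 0) : ∃ j < k, a = Sum.inl (0, j) := by
  rw [ends_fst] at h
  have hb := te_bound hv ha
  have hk : 0 < 2 * k := by omega
  obtain ⟨h1, -⟩ := vx_eq hv hb.1 (Nat.zero_le _) hb.2 hk (h.trans (vx_zero k w 0).symm)
  rcases a with ⟨t, j'⟩ | ⟨r', b⟩
  · simp only [te, Sum.elim_inl] at h1
    by_cases hj' : j' < k
    · rw [if_pos hj'] at h1
      simp only at h1
      subst h1
      exact ⟨j', hj', rfl⟩
    · rw [if_neg hj'] at h1
      simp at h1
  · simp only [te, Sum.elim_inr] at h1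
    split_ifs at h1

/-- The arcs whose head is the first vertex. -/
theorem head_zero {k : ℕ} {w : List (Bool × ℕ)} (hv : Valid k w) {a : Arc} (ha : a ∈ arcs k w)
    (h : (ends k w a).2 = 0) : ∃ j, k ≤ j ∧ j < 2 * k ∧ a = Sum.inl (0, j) := by
  rw [ends_snd] at h
  have hb := he_bound hv ha
  have hk : 0 < 2 * k := by omega
  obtain ⟨h1, -⟩ := vx_eq hv hb.1 (Nat.zero_le _) hb.2 hk (h.trans (vx_zero k w 0).symm)
  rcases a with ⟨t, j'⟩ | ⟨r', b⟩
  · rw [mem_arcs_inl] at ha
    simp only [he, Sum.elim_inl] at h1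
    by_cases hj' : j' < k
    · rw [if_pos hj'] at h1
      simp at h1
    · rw [if_neg hj'] at h1
      simp only at h1
      subst h1
      exact ⟨j', by omega, ha.2, rfl⟩
  · simp only [he, Sum.elim_inr] at h1
    split_ifs at h1

/-- The arcs whose tail is the last vertex. -/
theorem tail_last {k : ℕ} {w : List (Bool × ℕ)} (hv : Valid k w) {a : Arc} (ha : a ∈ arcs k w)
    (h : (ends k w a).1 = 1) : ∃ j, k ≤ j ∧ j < 2 * k ∧ a = Sum.inl (w.length, j) := by
  rw [ends_fst] at h
  have hb := te_bound hv ha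
  have hk : 0 < 2 * k := by omega
  obtain ⟨h1, -⟩ := vx_eq hv hb.1 le_rfl hb.2 hk (h.trans (vx_last k w 0).symm)
  rcases a with ⟨t, j'⟩ | ⟨r', b⟩
  · rw [mem_arcs_inl] at ha
    simp only [te, Sum.elim_inl] at h1
    by_cases hj' : j' < k
    · rw [if_pos hj'] at h1
      simp only at h1
      omega
    · rw [if_neg hj'] at h1
      simp only at h1
      obtain rfl : t = w.length := by omega
      exact ⟨j', by omega, ha.2, rfl⟩
  · rw [mem_arcs_inr] at ha
    simp only [te, Sum.elim_inr] at h1
    split_ifs at h1 <;> simp only at h1 <;> omega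

/-- The arcs whose head is the last vertex. -/
theorem head_last {k : ℕ} {w : List (Bool × ℕ)} (hv : Valid k w) {a : Arc} (ha : a ∈ arcs k w)
    (h : (ends k w a).2 = 1) : ∃ j < k, a = Sum.inl (w.length, j) := by
  rw [ends_snd] at h
  have hb := he_bound hv ha
  have hk : 0 < 2 * k := by omega
  obtain ⟨h1, -⟩ := vx_eq hv hb.1 le_rfl hb.2 hk (h.trans (vx_last k w 0).symm)
  rcases a with ⟨t, j'⟩ | ⟨r', b⟩
  · rw [mem_arcs_inl] at ha
    simp only [he, Sum.elim_inl] at h1
    by_cases hj' : j' < k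
    · rw [if_pos hj'] at h1
      simp only at h1
      obtain rfl : t = w.length := by omega
      exact ⟨j', hj', rfl⟩
    · rw [if_neg hj'] at h1
      simp only at h1
      omega
  · rw [mem_arcs_inr] at ha
    simp only [he, Sum.elim_inr] at h1
    split_ifs at h1 <;> simp only at h1 <;> omega

theorem loopless_dig {k : ℕ} {w : List (Bool × ℕ)} (hv : Valid k w) : Loopless (dig k w) := by
  intro x hx
  unfold dig at hx
  rw [List.mem_map] at hx
  obtain ⟨a, ha, rfl⟩ := hx
  rw [ends_fst, ends_snd]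
  intro h
  have h1 := te_bound hv ha
  have h2 := he_bound hv ha
  obtain ⟨h3, h4⟩ := vx_eq hv h1.1 h2.1 h1.2 h2.2 h
  rcases a with ⟨t, j⟩ | ⟨r, b⟩
  · simp only [te, he, Sum.elim_inl] at h3
    split_ifs at h3 <;> simp at h3
  · rw [mem_arcs_inr] at ha
    simp only [te, he, Sum.elim_inr] at h4
    rcases h4 with h4 | h4 | h4
    · split_ifs at h4
    · split_ifs at h4 <;> simp only at h4 <;> omega
    · rw [posn_eq] at h4
      cases b
      · simp [ha.2] at h4
      · simp [ha.2] at h4

end Pool.Agent.H675.DCD
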