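import Pool.Agent.H675.DCD.Graph

/-!
# The digraph of a word is Eulerian and planar
-/

namespace Pool.Agent.H675.DCD

section Euler

variable {k : ℕ} {w : List (Bool × ℕ)}

/-- the next arc along the wires -/
def nx (k : ℕ) (w : List (Bool × ℕ)) : Arc → Arc :=
  Sum.elim
    (fun x => if x.2 < k then (if x.1 = w.length then Sum.inl (x.1, x.2 + k)
      else Sum.inl (x.1 + 1, x.2)) else (if x.1 = 0 then Sum.inl (0, x.2 - k)
      else Sum.inl (x.1 - 1, x.2)))
    (fun y => Sum.inr (y.1, !y.2))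

/-- the previous arc along the wires -/
def pv (k : ℕ) (w : List (Bool × ℕ)) : Arc → Arc :=
  Sum.elim
    (fun x => if x.2 < k then (if x.1 = 0 then Sum.inl (0, x.2 + k)
      else Sum.inl (x.1 - 1, x.2)) else (if x.1 = w.length then Sum.inl (x.1, x.2 - k)
      else Sum.inl (x.1 + 1, x.2)))
    (fun y => Sum.inr (y.1, !y.2))

theorem nx_mem {a : Arc} (ha : a ∈ arcs k w) :
    nx k w a ∈ arcs k w ∧ (ends k w (nx k w a)).1 = (ends k w a).2 ∧ pv k w (nx k w a) = a := by
  rcases a with ⟨t, j⟩ | ⟨r, b⟩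
  · obtain ⟨ht, hj⟩ := mem_arcs_inl.1 ha
    simp only [nx, Sum.elim_inl]
    by_cases h1 : j < k
    · rw [if_pos h1]
      by_cases h2 : t = w.length
      · rw [if_pos h2]
        refine ⟨mem_arcs_inl.2 ⟨ht, by omega⟩, ?_, ?_⟩
        · subst h2
          simp [ends, h1, vx_last]
        · simp [pv, h2]
      · rw [if_neg h2]
        refine ⟨mem_arcs_inl.2 ⟨by omega, by omega⟩, ?_, ?_⟩
        · simp [ends, h1]
        · simp [pv, h1]
    · rw [if_neg h1]
      by_cases h2 : t = 0
      · rw [if_pos h2]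
        refine ⟨mem_arcs_inl.2 ⟨by omega, by omega⟩, ?_, ?_⟩
        · subst h2
          simp [ends, h1, show j - k < k by omega, vx_zero]
        · simp [pv, h2, show j - k < k by omega]
          omega
      · rw [if_neg h2]
        refine ⟨mem_arcs_inl.2 ⟨by omega, by omega⟩, ?_, ?_⟩
        · simp [ends, h1, show t - 1 + 1 = t by omega]
        · simp [pv, h1, show t - 1 + 1 = t by omega, show t - 1 ≠ w.length by omega]
  · have ha' := mem_arcs_inr.1 ha
    refine ⟨mem_arcs_inr.2 ha', ?_, ?_⟩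
    · cases b <;> simp [nx, ends]
    · cases b <;> simp [nx, pv]

theorem pv_mem {a : Arc} (ha : a ∈ arcs k w) :
    pv k w a ∈ arcs k w ∧ (ends k w (pv k w a)).2 = (ends k w a).1 ∧ nx k w (pv k w a) = a := by
  rcases a with ⟨t, j⟩ | ⟨r, b⟩
  · obtain ⟨ht, hj⟩ := mem_arcs_inl.1 ha
    simp only [pv, Sum.elim_inl]
    by_cases h1 : j < k
    · rw [if_pos h1]
      by_cases h2 : t = 0
      · rw [if_pos h2]
        refine ⟨mem_arcs_inl.2 ⟨by omega, by omega⟩, ?_, ?_⟩
        · subst h2
          simp [ends, h1, vx_zero]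
        · simp [nx, h2]
      · rw [if_neg h2]
        refine ⟨mem_arcs_inl.2 ⟨by omega, by omega⟩, ?_, ?_⟩
        · simp [ends, h1, show t - 1 + 1 = t by omega]
        · simp [nx, h1, show t - 1 + 1 = t by omega, show t - 1 ≠ w.length by omega]
    · rw [if_neg h1]
      by_cases h2 : t = w.length
      · rw [if_pos h2]
        refine ⟨mem_arcs_inl.2 ⟨by omega, by omega⟩, ?_, ?_⟩
        · subst h2
          simp [ends, h1, show j - k < k by omega, vx_last]
        · simp [nx, h2, show j - k < k by omega]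
          omega
      · rw [if_neg h2]
        refine ⟨mem_arcs_inl.2 ⟨by omega, by omega⟩, ?_, ?_⟩
        · simp [ends, h1]
        · simp [nx, h1]
  · have ha' := mem_arcs_inr.1 ha
    refine ⟨mem_arcs_inr.2 ha', ?_, ?_⟩
    · cases b <;> simp [pv, ends]
    · cases b <;> simp [nx, pv]

theorem countP_eq_card {α : Type*} [DecidableEq α] {l : List α} (hl : l.Nodup) (p : α → Bool) :
    l.countP p = (l.toFinset.filter fun a => p a = true).card := by
  rw [List.countP_eq_length_filter, ← List.toFinset_card_of_nodup (hl.filter p),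
    List.toFinset_filter]

/-- The digraph of a word is Eulerian. -/
theorem eulerian_dig (k : ℕ) (w : List (Bool × ℕ)) : Eulerian (dig k w) := by
  intro v
  unfold dig
  rw [List.countP_map, List.countP_map, countP_eq_card (nodup_arcs k w),
    countP_eq_card (nodup_arcs k w)]
  apply Finset.card_nbij' (pv k w) (nx k w)
  · intro a ha
    simp only [Finset.coe_filter, List.mem_toFinset, Function.comp_apply, decide_eq_true_eq,
      Set.mem_ofPred_eq] at ha ⊢
    obtain ⟨h1, h2, h3⟩ := pv_mem ha.1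
    exact ⟨h1, h2.trans ha.2⟩
  · intro a ha
    simp only [Finset.coe_filter, List.mem_toFinset, Function.comp_apply, decide_eq_true_eq,
      Set.mem_ofPred_eq] at ha ⊢
    obtain ⟨h1, h2, h3⟩ := nx_mem ha.1
    exact ⟨h1, h2.trans ha.2⟩
  · intro a ha
    simp only [Finset.coe_filter, List.mem_toFinset, Set.mem_ofPred_eq] at ha
    exact (pv_mem ha.1).2.2
  · intro a ha
    simp only [Finset.coe_filter, List.mem_toFinset, Set.mem_ofPred_eq] at ha
    exact (nx_mem ha.1).2.2

end Euler

section Plane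

variable {k : ℕ} {w : List (Bool × ℕ)}

/-- the x-coordinate of a vertex -/
def px (k : ℕ) (n : ℕ) : ℤ := if n = 0 then 0 else if n = 1 then -1 else ((n - 2) % (2 * k) : ℕ)

/-- the y-coordinate of a vertex -/
def py (k : ℕ) (w : List (Bool × ℕ)) (n : ℕ) : ℤ :=
  if n = 0 then 0 else if n = 1 then (w.length + 1 : ℕ) else ((n - 2) / (2 * k) + 1 : ℕ)

/-- the drawing -/
def drw (k : ℕ) (w : List (Bool × ℕ)) (n : ℕ) : ℝ × ℝ := ((px k n : ℝ), (py k w n : ℝ))

theorem drw_inj (hk : 0 < k) : Function.Injective (drw k w) := by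
  intro m n h
  have h1 : px k m = px k n := by
    have := congrArg Prod.fst h
    simpa [drw] using this
  have h2 : py k w m = py k w n := by
    have := congrArg Prod.snd h
    simpa [drw] using this
  have a0 : px k 0 = 0 := rfl
  have a1 : px k 1 = -1 := rfl
  have b0 : py k w 0 = 0 := rfl
  have b1 : py k w 1 = (w.length + 1 : ℕ) := rfl
  have a2 : ∀ l, px k (l + 2) = (l % (2 * k) : ℕ) := fun l => by
    unfold px
    rw [if_neg (by omega), if_neg (by omega), Nat.add_sub_cancel]
  have b2 : ∀ l, py k w (l + 2) = (l / (2 * k) + 1 : ℕ) := fun l => by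
    unfold py
    rw [if_neg (by omega), if_neg (by omega), Nat.add_sub_cancel]
  have c1 : ∀ l : ℕ, (-1 : ℤ) ≠ (l : ℕ) := fun l h => by omega
  have c2 : ∀ l : ℕ, (0 : ℤ) ≠ (l + 1 : ℕ) := fun l h => by omega
  rcases m with _ | _ | m <;> rcases n with _ | _ | n
  · rfl
  · simp only [zero_add] at h2
    rw [b0, b1] at h2
    omega
  · rw [show n + 1 + 1 = n + 2 by omega, b0, b2] at h2
    exact absurd h2 (c2 _)
  · simp only [zero_add] at h2
    rw [b0, b1] at h2
    omega
  · rfl
  · simp only [zero_add] at h1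
    rw [show n + 1 + 1 = n + 2 by omega, a1, a2] at h1
    exact absurd h1 (c1 _)
  · rw [show m + 1 + 1 = m + 2 by omega, b0, b2] at h2
    exact absurd h2.symm (c2 _)
  · simp only [zero_add] at h1
    rw [show m + 1 + 1 = m + 2 by omega, a1, a2] at h1
    exact absurd h1.symm (c1 _)
  · rw [show n + 1 + 1 = n + 2 by omega, show m + 1 + 1 = m + 2 by omega, a2, a2] at h1
    rw [show n + 1 + 1 = n + 2 by omega, show m + 1 + 1 = m + 2 by omega, b2, b2] at h2
    have e1 : m % (2 * k) = n % (2 * k) := by exact_mod_cast h1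
    have e2 : m / (2 * k) + 1 = n / (2 * k) + 1 := by exact_mod_cast h2
    have e3 := Nat.div_add_mod m (2 * k)
    have e4 := Nat.div_add_mod n (2 * k)
    rw [e1, show m / (2 * k) = n / (2 * k) by omega] at e3
    omega

/-- the x-coordinate of a wire at a level -/
def X (w : List (Bool × ℕ)) (t j : ℕ) : ℤ :=
  if t = 0 then 0 else if t = w.length + 1 then -1 else (posn w (t - 1) j : ℕ)

theorem px_vx (hv : Valid k w) {t j : ℕ} (ht : t ≤ w.length + 1) (hj : j < 2 * k) :
    px k (vx k w t j) = X w t j := by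
  unfold px vx X
  by_cases h0 : t = 0
  · simp [h0]
  · by_cases h1 : t = w.length + 1
    · simp [h1]
    · simp only [if_neg h0, if_neg h1]
      rw [if_neg (by omega), if_neg (by omega)]
      have hp := posn_lt hv (show t - 1 < w.length by omega) hj
      congr 1
      rw [Nat.add_sub_cancel_left, mul_comm, Nat.mul_add_mod, Nat.mod_eq_of_lt hp]

theorem py_vx (hv : Valid k w) {t j : ℕ} (ht : t ≤ w.length + 1) (hj : j < 2 * k) :
    py k w (vx k w t j) = t := by
  unfold py vx
  by_cases h0 : t = 0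
  · simp [h0]
  · by_cases h1 : t = w.length + 1
    · simp [h1]
    · simp only [if_neg h0, if_neg h1]
      rw [if_neg (by omega), if_neg (by omega)]
      have hp := posn_lt hv (show t - 1 < w.length by omega) hj
      have : (2 + ((t - 1) * (2 * k) + posn w (t - 1) j) - 2) / (2 * k) = t - 1 := by
        rw [Nat.add_sub_cancel_left, mul_comm, Nat.mul_add_div (by omega), Nat.div_eq_of_lt hp,
          add_zero]
      rw [this]
      congr 1
      omega

theorem X_mono {w : List (Bool × ℕ)} {t j j' : ℕ} (h : j ≤ j') : X w t j ≤ X w t j' := by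
  unfold X posn
  cases (op w (t - 1)).1
  · simp only [true_and]
    split_ifs <;> omega
  · simp only [Bool.true_eq_false, false_and, if_false]
    split_ifs <;> omega

/-- the two ends of an arc, in a fixed order -/
def eA : Arc → List (Bool × ℕ) → ℕ × ℕ
  | Sum.inl (t, j), _ => (t, j)
  | Sum.inr (r, _), w => (r + 1, (op w r).2)

/-- the two ends of an arc, in a fixed order -/
def eB : Arc → List (Bool × ℕ) → ℕ × ℕ
  | Sum.inl (t, j), _ => (t + 1, j)
  | Sum.inr (r, _), w => (r + 1, (op w r).2 + 1)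

theorem ends_or (a : Arc) :
    ends k w a = (vx k w (eA a w).1 (eA a w).2, vx k w (eB a w).1 (eB a w).2) ∨
    ends k w a = (vx k w (eB a w).1 (eB a w).2, vx k w (eA a w).1 (eA a w).2) := by
  rcases a with ⟨t, j⟩ | ⟨r, b⟩
  · simp only [ends, Sum.elim_inl, eA, eB]
    split_ifs
    · exact Or.inl rfl
    · exact Or.inr rfl
  · simp only [ends, Sum.elim_inr, eA, eB]
    split_ifs
    · exact Or.inl rfl
    · exact Or.inr rfl

/-- a point of a segment -/
theorem mem_seg {x1 y1 x2 y2 : ℝ} {z : ℝ × ℝ} (h : z ∈ segment ℝ (x1, y1) (x2, y2)) :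
    ∃ s : ℝ, 0 ≤ s ∧ s ≤ 1 ∧ z.1 = x1 + s * (x2 - x1) ∧ z.2 = y1 + s * (y2 - y1) := by
  obtain ⟨a, b, ha, hb, hab, rfl⟩ := h
  refine ⟨b, hb, by linarith, ?_, ?_⟩
  · simp only [Prod.smul_mk, Prod.mk_add_mk, smul_eq_mul]
    have : a = 1 - b := by linarith
    rw [this]; ring
  · simp only [Prod.smul_mk, Prod.mk_add_mk, smul_eq_mul]
    have : a = 1 - b := by linarith
    rw [this]; ring

theorem drw_vx (hv : Valid k w) {t j : ℕ} (ht : t ≤ w.length + 1) (hj : j < 2 * k) :
    drw k w (vx k w t j) = ((X w t j : ℝ), (t : ℝ)) := by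
  unfold drw
  rw [px_vx hv ht hj, py_vx hv ht hj]
  simp

/-- the main case: two wires of the same level -/
theorem wire_wire (hv : Valid k w) {t j j' : ℕ} (ht : t ≤ w.length) (hj : j < 2 * k)
    (hj' : j' < 2 * k) (hk : 0 < k)
    (hle : j ≤ j')
    (hne : ¬ (vx k w t j = vx k w t j' ∧ vx k w (t + 1) j = vx k w (t + 1) j')) {z : ℝ × ℝ}
    (h1 : z ∈ segment ℝ (drw k w (vx k w t j)) (drw k w (vx k w (t + 1) j)))
    (h2 : z ∈ segment ℝ (drw k w (vx k w t j')) (drw k w (vx k w (t + 1) j'))) :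
    (vx k w t j = vx k w t j' ∧ z = drw k w (vx k w t j)) ∨
    (vx k w (t + 1) j = vx k w (t + 1) j' ∧ z = drw k w (vx k w (t + 1) j)) := by
  have hinj := drw_inj (w := w) hk
  rw [drw_vx hv (by omega) hj, drw_vx hv (by omega) hj] at h1
  rw [drw_vx hv (by omega) hj', drw_vx hv (by omega) hj'] at h2
  obtain ⟨a, ha0, ha1, hax, hay⟩ := mem_seg h1
  obtain ⟨b, hb0, hb1, hbx, hby⟩ := mem_seg h2
  push_cast at hay hby
  obtain rfl : a = b := by linarith
  have m1 : (X w t j : ℝ) ≤ X w t j' := by exact_mod_cast X_mono hle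
  have m2 : (X w (t + 1) j : ℝ) ≤ X w (t + 1) j' := by exact_mod_cast X_mono hle
  have hsum : (1 - a) * ((X w t j' : ℝ) - X w t j) + a * ((X w (t + 1) j' : ℝ) - X w (t + 1) j) = 0 := by
    linarith
  have n1 : 0 ≤ (1 - a) * ((X w t j' : ℝ) - X w t j) := mul_nonneg (by linarith) (by linarith)
  have n2 : 0 ≤ a * ((X w (t + 1) j' : ℝ) - X w (t + 1) j) := mul_nonneg ha0 (by linarith)
  have z1 : (1 - a) * ((X w t j' : ℝ) - X w t j) = 0 := by linarith
  have z2 : a * ((X w (t + 1) j' : ℝ) - X w (t + 1) j) = 0 := by linarith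
  have v1 : (X w t j' : ℝ) - X w t j = 0 → vx k w t j = vx k w t j' := by
    intro h
    apply hinj
    rw [drw_vx hv (by omega) hj, drw_vx hv (by omega) hj']
    rw [show (X w t j : ℝ) = X w t j' by linarith]
  have v2 : (X w (t + 1) j' : ℝ) - X w (t + 1) j = 0 → vx k w (t + 1) j = vx k w (t + 1) j' := by
    intro h
    apply hinj
    rw [drw_vx hv (by omega) hj, drw_vx hv (by omega) hj']
    rw [show (X w (t + 1) j : ℝ) = X w (t + 1) j' by linarith]
  rcases mul_eq_zero.1 z1 with e1 | e1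
  · rcases mul_eq_zero.1 z2 with e2 | e2
    · linarith
    · right
      refine ⟨v2 e2, ?_⟩
      rw [drw_vx hv (by omega) hj]
      have : a = 1 := by linarith
      subst this
      apply Prod.ext
      · simp only; linarith
      · simp only; push_cast; linarith
  · rcases mul_eq_zero.1 z2 with e2 | e2
    · left
      refine ⟨v1 e1, ?_⟩
      rw [drw_vx hv (by omega) hj]
      subst e2
      apply Prod.ext
      · simp only; linarith
      · simp only; linarith
    · exact absurd ⟨v1 e1, v2 e2⟩ hne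

/-- a wire meets the horizontal line of a row in a vertex -/
theorem wire_level (hv : Valid k w) {t j r : ℕ} (ht : t ≤ w.length) (hj : j < 2 * k)
    {z : ℝ × ℝ}
    (h1 : z ∈ segment ℝ (drw k w (vx k w t j)) (drw k w (vx k w (t + 1) j)))
    (hz : z.2 = (r : ℝ)) :
    (t = r ∧ z = drw k w (vx k w t j)) ∨ (t + 1 = r ∧ z = drw k w (vx k w (t + 1) j)) := by
  rw [drw_vx hv (by omega) hj, drw_vx hv (by omega) hj] at h1
  rw [drw_vx hv (by omega) hj, drw_vx hv (by omega) hj]
  obtain ⟨a, ha0, ha1, hax, hay⟩ := mem_seg h1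
  push_cast at hay
  have hay' : z.2 = t + a := by linarith
  have b1 : (t : ℝ) ≤ r := by linarith
  have b2 : (r : ℝ) ≤ (t + 1 : ℕ) := by push_cast; linarith
  have b1' : t ≤ r := by exact_mod_cast b1
  have b2' : r ≤ t + 1 := by exact_mod_cast b2
  rcases Nat.eq_or_lt_of_le b1' with e | e
  · left
    refine ⟨e, ?_⟩
    have : a = 0 := by rw [← e] at hz; linarith
    subst this
    apply Prod.ext
    · simp only; linarith
    · simp only; linarith
  · right
    have e' : t + 1 = r := by omega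
    refine ⟨e', ?_⟩
    have e3 : (t : ℝ) + 1 = r := by exact_mod_cast e'
    have : a = 1 := by linarith
    subst this
    apply Prod.ext
    · simp only; linarith
    · simp only; push_cast; linarith

/-- Two segments meet only in common ends. -/
theorem seg_seg (hv : Valid k w) (hk : 0 < k) {a b : Arc} (ha : a ∈ arcs k w) (hb : b ∈ arcs k w)
    (hne : ({vx k w (eA a w).1 (eA a w).2, vx k w (eB a w).1 (eB a w).2} : Set ℕ) ≠
      {vx k w (eA b w).1 (eA b w).2, vx k w (eB b w).1 (eB b w).2}) {z : ℝ × ℝ}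
    (h1 : z ∈ segment ℝ (drw k w (vx k w (eA a w).1 (eA a w).2))
      (drw k w (vx k w (eB a w).1 (eB a w).2)))
    (h2 : z ∈ segment ℝ (drw k w (vx k w (eA b w).1 (eA b w).2))
      (drw k w (vx k w (eB b w).1 (eB b w).2))) :
    ∃ v ∈ ({vx k w (eA a w).1 (eA a w).2, vx k w (eB a w).1 (eB a w).2} : Set ℕ),
      v ∈ ({vx k w (eA b w).1 (eA b w).2, vx k w (eB b w).1 (eB b w).2} : Set ℕ) ∧
      z = drw k w v := by
  have hinj := drw_inj (w := w) hk
  have hor : ∀ {r : ℕ}, r < w.length → ∀ {z : ℝ × ℝ},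
      z ∈ segment ℝ (drw k w (vx k w (r + 1) (op w r).2))
        (drw k w (vx k w (r + 1) ((op w r).2 + 1))) → (op w r).1 = true →
      z.2 = ((r + 1 : ℕ) : ℝ) ∧ ((op w r).2 : ℝ) ≤ z.1 ∧ z.1 ≤ (op w r).2 + 1 := by
    intro r hr z hz ho
    have hvr := valid_op hv hr
    rw [drw_vx hv (by omega) (by omega), drw_vx hv (by omega) (by omega)] at hz
    obtain ⟨a, ha0, ha1, hax, hay⟩ := mem_seg hz
    have x1 : (X w (r + 1) (op w r).2 : ℝ) = (op w r).2 := by
      simp only [X, Nat.add_sub_cancel]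
      rw [if_neg (by omega), if_neg (by omega)]
      simp [posn, ho]
    have x2 : (X w (r + 1) ((op w r).2 + 1) : ℝ) = (op w r).2 + 1 := by
      simp only [X, Nat.add_sub_cancel]
      rw [if_neg (by omega), if_neg (by omega)]
      simp [posn, ho]
    rw [x1, x2] at hax
    refine ⟨by rw [hay]; ring, ?_, ?_⟩
    · rw [hax]; nlinarith
    · rw [hax]; nlinarith
  -- a wire and a horizontal segment
  have wd : ∀ {t j r : ℕ}, t ≤ w.length → j < 2 * k → r < w.length → (op w r).1 = true →
      ∀ {z : ℝ × ℝ}, z ∈ segment ℝ (drw k w (vx k w t j)) (drw k w (vx k w (t + 1) j)) →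
      z ∈ segment ℝ (drw k w (vx k w (r + 1) (op w r).2))
        (drw k w (vx k w (r + 1) ((op w r).2 + 1))) →
      ∃ v, (v = vx k w t j ∨ v = vx k w (t + 1) j) ∧
        (v = vx k w (r + 1) (op w r).2 ∨ v = vx k w (r + 1) ((op w r).2 + 1)) ∧
        z = drw k w v := by
    intro t j r ht hj hr ho z hz1 hz2
    obtain ⟨g1, g2, g3⟩ := hor hr hz2 ho
    have hvr := valid_op hv hr
    have key : ∀ s, s = r + 1 → z = drw k w (vx k w s j) → (s = t ∨ s = t + 1) →
        ∃ v, (v = vx k w t j ∨ v = vx k w (t + 1) j) ∧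
        (v = vx k w (r + 1) (op w r).2 ∨ v = vx k w (r + 1) ((op w r).2 + 1)) ∧
        z = drw k w v := by
      intro s hs hzs hst
      refine ⟨vx k w s j, ?_, ?_, hzs⟩
      · rcases hst with rfl | rfl
        · exact Or.inl rfl
        · exact Or.inr rfl
      · have hx : z.1 = (j : ℝ) := by
          rw [hzs, drw_vx hv (by omega) hj, hs]
          simp only [X, Nat.add_sub_cancel]
          rw [if_neg (by omega), if_neg (by omega)]
          simp [posn, ho]
        rw [hx] at g2 g3
        have g2' : (op w r).2 ≤ j := by exact_mod_cast g2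
        have g3' : j ≤ (op w r).2 + 1 := by exact_mod_cast g3
        rw [hs]
        rcases Nat.eq_or_lt_of_le g2' with e | e
        · rw [e]; exact Or.inl rfl
        · rw [show j = (op w r).2 + 1 by omega]; exact Or.inr rfl
    rcases wire_level hv ht hj hz1 g1 with ⟨e1, e2⟩ | ⟨e1, e2⟩
    · exact key t e1 e2 (Or.inl rfl)
    · exact key (t + 1) e1 e2 (Or.inr rfl)
  rcases a with ⟨t, j⟩ | ⟨r, c⟩ <;> rcases b with ⟨t', j'⟩ | ⟨r', c'⟩
  · -- two wires
    obtain ⟨ht, hj⟩ := mem_arcs_inl.1 ha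
    obtain ⟨ht', hj'⟩ := mem_arcs_inl.1 hb
    simp only [eA, eB] at hne h1 h2 ⊢
    rcases Nat.lt_trichotomy t t' with htt | rfl | htt
    · -- t < t'
      have y2 : (t' : ℝ) ≤ z.2 := by
        rw [drw_vx hv (by omega) hj', drw_vx hv (by omega) hj'] at h2
        obtain ⟨a, ha0, ha1, hax, hay⟩ := mem_seg h2
        push_cast at hay
        linarith
      have y1 : z.2 ≤ (t : ℝ) + 1 := by
        rw [drw_vx hv (by omega) hj, drw_vx hv (by omega) hj] at h1
        obtain ⟨a, ha0, ha1, hax, hay⟩ := mem_seg h1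
        push_cast at hay
        linarith
      have y3 : ((t + 1 : ℕ) : ℝ) ≤ t' := by exact_mod_cast htt
      have hz : z.2 = ((t + 1 : ℕ) : ℝ) := by push_cast at y3 ⊢; linarith
      have htt' : t' = t + 1 := by
        have : (t' : ℝ) ≤ ((t + 1 : ℕ) : ℝ) := by push_cast; linarith
        have : t' ≤ t + 1 := by exact_mod_cast this
        omega
      subst htt'
      rcases wire_level hv ht hj h1 hz with ⟨e1, e2⟩ | ⟨-, e2⟩
      · omega
      · rcases wire_level hv ht' hj' h2 hz with ⟨-, e4⟩ | ⟨e3, e4⟩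
        · have := hinj (e2.symm.trans e4)
          exact ⟨_, Or.inr rfl, Or.inl this, e2⟩
        · omega
    · rcases Nat.le_total j j' with hle | hle
      · have hne' : ¬ (vx k w t j = vx k w t j' ∧ vx k w (t + 1) j = vx k w (t + 1) j') := by
          rintro ⟨e1, e2⟩
          rw [e1, e2] at hne
          exact hne rfl
        rcases wire_wire hv ht hj hj' hk hle hne' h1 h2 with ⟨e1, e2⟩ | ⟨e1, e2⟩
        · exact ⟨_, Or.inl rfl, Or.inl e1, e2⟩
        · exact ⟨_, Or.inr rfl, Or.inr e1, e2⟩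
      · have hne' : ¬ (vx k w t j' = vx k w t j ∧ vx k w (t + 1) j' = vx k w (t + 1) j) := by
          rintro ⟨e1, e2⟩
          rw [e1, e2] at hne
          exact hne rfl
        rcases wire_wire hv ht hj' hj hk hle hne' h2 h1 with ⟨e1, e2⟩ | ⟨e1, e2⟩
        · exact ⟨_, Or.inl e1, Or.inl rfl, e2⟩
        · exact ⟨_, Or.inr e1, Or.inr rfl, e2⟩
    · -- t' < t
      have y2 : (t : ℝ) ≤ z.2 := by
        rw [drw_vx hv (by omega) hj, drw_vx hv (by omega) hj] at h1
        obtain ⟨a, ha0, ha1, hax, hay⟩ := mem_seg h1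
        push_cast at hay
        linarith
      have y1 : z.2 ≤ (t' : ℝ) + 1 := by
        rw [drw_vx hv (by omega) hj', drw_vx hv (by omega) hj'] at h2
        obtain ⟨a, ha0, ha1, hax, hay⟩ := mem_seg h2
        push_cast at hay
        linarith
      have y3 : ((t' + 1 : ℕ) : ℝ) ≤ t := by exact_mod_cast htt
      have hz : z.2 = ((t' + 1 : ℕ) : ℝ) := by push_cast at y3 ⊢; linarith
      have htt' : t = t' + 1 := by
        have : (t : ℝ) ≤ ((t' + 1 : ℕ) : ℝ) := by push_cast; linarith
        have : t ≤ t' + 1 := by exact_mod_cast this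
        omega
      subst htt'
      rcases wire_level hv ht' hj' h2 hz with ⟨e1, e2⟩ | ⟨-, e2⟩
      · omega
      · rcases wire_level hv ht hj h1 hz with ⟨-, e4⟩ | ⟨e3, e4⟩
        · have := hinj (e4.symm.trans e2)
          exact ⟨_, Or.inl rfl, Or.inr this, e4⟩
        · omega
  · obtain ⟨ht, hj⟩ := mem_arcs_inl.1 ha
    obtain ⟨hr, ho⟩ := mem_arcs_inr.1 hb
    simp only [eA, eB] at hne h1 h2 ⊢
    obtain ⟨v, v1, v2, v3⟩ := wd ht hj hr ho h1 h2
    exact ⟨v, v1, v2, v3⟩
  · obtain ⟨ht, hj⟩ := mem_arcs_inl.1 hb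
    obtain ⟨hr, ho⟩ := mem_arcs_inr.1 ha
    simp only [eA, eB] at hne h1 h2 ⊢
    obtain ⟨v, v1, v2, v3⟩ := wd ht hj hr ho h2 h1
    exact ⟨v, v2, v1, v3⟩
  · obtain ⟨hr, ho⟩ := mem_arcs_inr.1 ha
    obtain ⟨hr', ho'⟩ := mem_arcs_inr.1 hb
    simp only [eA, eB] at hne h1 h2 ⊢
    have g1 := (hor hr h1 ho).1
    have g2 := (hor hr' h2 ho').1
    have : r + 1 = r' + 1 := by exact_mod_cast g1.symm.trans g2
    obtain rfl : r = r' := by omega
    exact absurd rfl hne

/-- The digraph of a word is planar. -/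
theorem planar_dig (hv : Valid k w) (hk : 0 < k) : Planar (dig k w) := by
  refine ⟨drw k w, drw_inj hk, ?_⟩
  intro x hx y hy hne z hz1 hz2
  unfold dig at hx hy
  rw [List.mem_map] at hx hy
  obtain ⟨a, ha, rfl⟩ := hx
  obtain ⟨b, hb, rfl⟩ := hy
  have key : ∀ c : Arc, ({(ends k w c).1, (ends k w c).2} : Set ℕ) =
      {vx k w (eA c w).1 (eA c w).2, vx k w (eB c w).1 (eB c w).2} ∧
      segment ℝ (drw k w (ends k w c).1) (drw k w (ends k w c).2) =
      segment ℝ (drw k w (vx k w (eA c w).1 (eA c w).2))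
        (drw k w (vx k w (eB c w).1 (eB c w).2)) := by
    intro c
    rcases ends_or (k := k) (w := w) c with h | h
    · rw [h]
      exact ⟨rfl, rfl⟩
    · rw [h]
      exact ⟨Set.pair_comm _ _, segment_symm _ _ _⟩
  obtain ⟨ka1, ka2⟩ := key a
  obtain ⟨kb1, kb2⟩ := key b
  rw [ka1, kb1] at hne
  rw [ka2] at hz1
  rw [kb2] at hz2
  rw [ka1, kb1]
  exact seg_seg hv hk ha hb hne hz1 hz2

end Plane

end Pool.Agent.H675.DCD
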