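import Pool.Agent.H675.DCD.SatWord
import Pool.Agent.H675.DCD.Graph
import Pool.Graph.R_seed8.H671R2.PolyAuto

/-!
# The reduction is computable in polynomial time
-/

namespace Pool.Agent.NPC.DCD675

open Pool.Agent.H675.DCD

variable {α : Type} [TEnc α]

/-- A bounded version of `mv`. -/
def mvB (K p n : ℕ) : List ℕ := (List.range (min n K)).map fun i => p + i

theorem mvB_eq {K p n : ℕ} (h : n ≤ K) : mvB K p n = H675.DCD.mv p n := by
  unfold mvB H675.DCD.mv
  rw [min_eq_left h]

theorem poly_mvB {K p n : α → ℕ} (hK : UPoly K) (hp : Poly p) (hn : Poly n) :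
    Poly (fun a => mvB (K a) (p a) (n a)) :=
  Poly.map (F := fun a i => p a + i)
    (UPoly.of_le (Poly.min hn hK.toPoly) hK (fun _ => min_le_right _ _)).range
    (Poly.add (hp.comp (Poly.fst Poly.id)) (Poly.snd Poly.id))

theorem poly_conj {L : α → List ℕ} {i : α → ℕ} (hL : Poly L) (hi : Poly i) :
    Poly (fun a => conjW (L a) (i a)) := by
  unfold conjW
  fun_prop

/-- A bounded version of `testW`. -/
def testB (k p q : ℕ) : List (Bool × ℕ) :=
  conjW ((mvB k k q).reverse ++ mvB k p (k - 1 - p)) (k - 1)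

theorem testB_eq {k p q : ℕ} (h : q ≤ k) : testB k p q = testW k p q := by
  unfold testB testW
  rw [mvB_eq h, mvB_eq (by omega)]

theorem poly_testB {k p q : α → ℕ} (hk : UPoly k) (hp : Poly p) (hq : Poly q) :
    Poly (fun a => testB (k a) (p a) (q a)) := by
  have hk' := hk.toPoly
  have h1 := poly_mvB hk hk' hq
  have h2 : Poly (fun a => mvB (k a) (p a) (k a - 1 - p a)) :=
    poly_mvB hk hp (by fun_prop)
  have h3 : Poly (fun a => (mvB (k a) (k a) (q a)).reverse ++ mvB (k a) (p a) (k a - 1 - p a)) := by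
    fun_prop
  exact poly_conj h3 (by fun_prop)

/-- A bounded version of `swapW`. -/
def swapB (k p p' : ℕ) : List (Bool × ℕ) := conjW (mvB k p (p' - 1 - p)) (p' - 1)

theorem swapB_eq {k p p' : ℕ} (h : p' ≤ k) : swapB k p p' = swapW p p' := by
  unfold swapB swapW
  rw [mvB_eq (by omega)]

theorem poly_swapB {k p p' : α → ℕ} (hk : UPoly k) (hp : Poly p) (hq : Poly p') :
    Poly (fun a => swapB (k a) (p a) (p' a)) :=
  poly_conj (poly_mvB hk hp (by fun_prop)) (by fun_prop)

theorem testsB_eq {k : ℕ} {l : List (ℕ × ℕ)} (h : ∀ x ∈ l, x.2 ≤ k) :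
    (l.flatMap fun x => testB k x.1 x.2) = testsW k l := by
  unfold testsW
  apply List.flatMap_congr
  intro x hx
  exact testB_eq (h x hx)

theorem poly_tests {k : α → ℕ} {l : α → List (ℕ × ℕ)} (hk : UPoly k) (hl : Poly l)
    (h : ∀ a, ∀ x ∈ l a, x.2 ≤ k a) : Poly (fun a => testsW (k a) (l a)) := by
  have hk2 : UPoly (fun p : α × (ℕ × ℕ) => k p.1) := hk.comp (Poly.fst Poly.id)
  have h2 : Poly (fun p : α × (ℕ × ℕ) => testB (k p.1) p.2.1 p.2.2) :=
    poly_testB hk2 (Poly.fst (Poly.snd Poly.id)) (Poly.snd (Poly.snd Poly.id))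
  have h1 : Poly (fun a => (l a).flatMap fun x => testB (k a) x.1 x.2) :=
    Poly.flatMap (F := fun a (x : ℕ × ℕ) => testB (k a) x.1 x.2) hl h2
  exact h1.congr fun a => testsB_eq (h a)

theorem poly_farPairs {k : α → ℕ} (hk : UPoly k) : Poly (fun a => farPairs (k a)) := by
  have key : ∀ R : α → List ℕ, Poly R → Poly (fun a => (R a).flatMap fun p =>
      ((R a).filter fun q => decide (¬ q / 2 = p / 2)).map fun q => (p, q)) := by
    intro R hR
    fun_prop
  exact key _ hk.range

theorem poly_topPairs {k : α → ℕ} (hk : UPoly k) : Poly (fun a => topPairs (k a)) := by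
  have h2 := hk.toPoly
  have key : ∀ R : α → List ℕ, Poly R → Poly (fun a =>
      ((R a).filter fun q => decide (q % 2 = 1 ∨ q = k a - 1)).map fun q => (k a - 1, q)) := by
    intro R hR
    fun_prop
  exact key _ hk.range

theorem poly_wire {l : α → Bool × ℕ} (hl : Poly l) : Poly (fun a => wire (l a)) := by
  unfold wire
  fun_prop

theorem poly_ex {k : α → ℕ} {c : α → (Bool × ℕ) × (Bool × ℕ) × (Bool × ℕ)} (hk : UPoly k)
    (hc : Poly c) : Poly (fun a => exW (k a) (c a)) := by
  unfold exW
  have h2 := hk.toPoly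
  have key : ∀ l : α → Bool × ℕ, Poly l → Poly (fun a => swapW (wire (l a)) (k a - 1)) := by
    intro l hl
    exact (poly_swapB hk (poly_wire hl) (by fun_prop)).congr fun a => swapB_eq (by omega)
  exact Poly.append (key _ (by fun_prop)) (Poly.append (key _ (by fun_prop)) (key _ (by fun_prop)))

theorem poly_clause {k : α → ℕ} {c : α → (Bool × ℕ) × (Bool × ℕ) × (Bool × ℕ)} (hk : UPoly k)
    (hc : Poly c) : Poly (fun a => clauseW (k a) (c a)) := by
  unfold clauseW
  have h1 := poly_ex hk hc
  have h2 : Poly (fun a => testsW (k a) (topPairs (k a))) :=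
    poly_tests hk (poly_topPairs hk) fun a x hx => (mem_topPairs.1 hx).2.1.le
  have h3 : Poly (fun a => testsW (k a) (farPairs (k a))) :=
    poly_tests hk (poly_farPairs hk) fun a x hx => (mem_farPairs.1 hx).2.1.le
  exact Poly.append h1 (Poly.append h2 (Poly.append h1 h3))

theorem poly_satW {k : α → ℕ} {φ : α → List ((Bool × ℕ) × (Bool × ℕ) × (Bool × ℕ))}
    (hk : UPoly k) (hφ : Poly φ) : Poly (fun a => satW (k a) (φ a)) := by
  unfold satW
  have h3 : Poly (fun a => testsW (k a) (farPairs (k a))) :=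
    poly_tests hk (poly_farPairs hk) fun a x hx => (mem_farPairs.1 hx).2.1.le
  exact Poly.append h3 (Poly.flatMap (F := fun a c => clauseW (k a) c) hφ
    (poly_clause (hk.comp (Poly.fst Poly.id)) (Poly.snd Poly.id)))

theorem poly_op {w : α → List (Bool × ℕ)} {r : α → ℕ} (hw : Poly w) (hr : Poly r) :
    Poly (fun a => op (w a) (r a)) := by
  unfold op
  fun_prop

theorem poly_posn {w : α → List (Bool × ℕ)} {r j : α → ℕ} (hw : Poly w) (hr : Poly r)
    (hj : Poly j) : Poly (fun a => posn (w a) (r a) (j a)) := by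
  unfold posn
  have := poly_op hw hr
  fun_prop

theorem poly_vx {k : α → ℕ} {w : α → List (Bool × ℕ)} {t j : α → ℕ} (hk : Poly k) (hw : Poly w)
    (ht : Poly t) (hj : Poly j) : Poly (fun a => vx (k a) (w a) (t a) (j a)) := by
  unfold vx
  have h1 : Poly (fun a => posn (w a) (t a - 1) (j a)) := poly_posn hw (by fun_prop) hj
  fun_prop

theorem poly_ends {k : α → ℕ} {w : α → List (Bool × ℕ)} {x : α → Arc} (hk : Poly k) (hw : Poly w)
    (hx : Poly x) : Poly (fun a => ends (k a) (w a) (x a)) := by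
  unfold ends
  refine Poly.sumElim (g := fun a (x : ℕ × ℕ) => if x.2 < k a then
      (vx (k a) (w a) x.1 x.2, vx (k a) (w a) (x.1 + 1) x.2)
      else (vx (k a) (w a) (x.1 + 1) x.2, vx (k a) (w a) x.1 x.2))
    (h := fun a (y : ℕ × Bool) => if y.2 = true then
      (vx (k a) (w a) (y.1 + 1) (op (w a) y.1).2, vx (k a) (w a) (y.1 + 1) ((op (w a) y.1).2 + 1))
      else (vx (k a) (w a) (y.1 + 1) ((op (w a) y.1).2 + 1), vx (k a) (w a) (y.1 + 1)
        (op (w a) y.1).2)) hx ?_ ?_
  · have h1 : Poly (fun p : α × (ℕ × ℕ) => vx (k p.1) (w p.1) p.2.1 p.2.2) :=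
      poly_vx (by fun_prop) (by fun_prop) (by fun_prop) (by fun_prop)
    have h2 : Poly (fun p : α × (ℕ × ℕ) => vx (k p.1) (w p.1) (p.2.1 + 1) p.2.2) :=
      poly_vx (by fun_prop) (by fun_prop) (by fun_prop) (by fun_prop)
    fun_prop
  · have h0 : Poly (fun p : α × (ℕ × Bool) => op (w p.1) p.2.1) :=
      poly_op (by fun_prop) (by fun_prop)
    have h1 : Poly (fun p : α × (ℕ × Bool) =>
        vx (k p.1) (w p.1) (p.2.1 + 1) (op (w p.1) p.2.1).2) :=
      poly_vx (by fun_prop) (by fun_prop) (by fun_prop) (by fun_prop)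
    have h2 : Poly (fun p : α × (ℕ × Bool) =>
        vx (k p.1) (w p.1) (p.2.1 + 1) ((op (w p.1) p.2.1).2 + 1)) :=
      poly_vx (by fun_prop) (by fun_prop) (by fun_prop) (by fun_prop)
    fun_prop

theorem poly_arcs {k : α → ℕ} {w : α → List (Bool × ℕ)} (hk : UPoly k) (hw : Poly w) :
    Poly (fun a => arcs (k a) (w a)) := by
  unfold arcs
  have h1 : Poly (fun a => List.range ((w a).length + 1)) :=
    (UPoly.add (UPoly.length hw) (UPoly.const 1)).range
  have h2 : Poly (fun a => List.range (2 * k a)) := (UPoly.mul (UPoly.const 2) hk).range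
  have h3 : Poly (fun a => List.range (w a).length) := (UPoly.length hw).range
  have h4 : Poly (fun a => (List.range (w a).length).filter fun r => (op (w a) r).1) :=
    Poly.filter (p := fun a r => (op (w a) r).1) h3
      (Poly.fst (poly_op (by fun_prop) (by fun_prop)))
  have h5 : Poly (fun a => List.product (List.range ((w a).length + 1)) (List.range (2 * k a))) :=
    R671.poly_product h1 h2
  have h6 : Poly (fun a => List.product
      ((List.range (w a).length).filter fun r => (op (w a) r).1) [true, false]) :=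
    R671.poly_product h4 (Poly.const _)
  exact Poly.append (Poly.map (F := fun _ x => (Sum.inl x : Arc)) h5
      (Poly.inl (Poly.snd Poly.id)))
    (Poly.map (F := fun _ y => (Sum.inr y : Arc)) h6 (Poly.inr (Poly.snd Poly.id)))

theorem poly_dig {k : α → ℕ} {w : α → List (Bool × ℕ)} (hk : UPoly k) (hw : Poly w) :
    Poly (fun a => dig (k a) (w a)) := by
  unfold dig
  exact Poly.map (F := fun a x => ends (k a) (w a) x) (poly_arcs hk hw)
    (poly_ends (hk.toPoly.comp (Poly.fst Poly.id)) (hw.comp (Poly.fst Poly.id))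
      (Poly.snd Poly.id))

end Pool.Agent.NPC.DCD675
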