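import Pool.Agent.H675.DCD.Word
import Pool.Graph.R_seed8.NPC.Sat2

/-!
# Satisfiability as the existence of a run of a word
-/

namespace Pool.Agent.H675.DCD

open Equiv Pool.Agent.NPC

/-- The wire that carries the first token of its variable iff the literal is true. -/
def wire (l : Bool × ℕ) : ℕ := 2 * l.2 + (if l.1 = true then 0 else 1)

theorem wire_div (l : Bool × ℕ) : wire l / 2 = l.2 := by
  unfold wire
  split <;> omega

/-- The pairs of wires that have different tokens. -/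
def farPairs (k : ℕ) : List (ℕ × ℕ) :=
  (List.range k).flatMap fun p =>
    ((List.range k).filter fun q => decide (¬ q / 2 = p / 2)).map fun q => (p, q)

/-- The tests of the last wire. -/
def topPairs (k : ℕ) : List (ℕ × ℕ) :=
  ((List.range k).filter fun q => decide (q % 2 = 1 ∨ q = k - 1)).map fun q => (k - 1, q)

theorem mem_farPairs {k : ℕ} {x : ℕ × ℕ} :
    x ∈ farPairs k ↔ x.1 < k ∧ x.2 < k ∧ ¬ x.2 / 2 = x.1 / 2 := by
  obtain ⟨p, q⟩ := x
  simp only [farPairs, List.mem_flatMap, List.mem_range, List.mem_map, List.mem_filter,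
    decide_eq_true_eq, Prod.mk.injEq]
  constructor
  · rintro ⟨a, ha, b, ⟨hb, hab⟩, rfl, rfl⟩
    exact ⟨ha, hb, hab⟩
  · rintro ⟨hp, hq, h⟩
    exact ⟨p, hp, q, ⟨hq, h⟩, rfl, rfl⟩

theorem mem_topPairs {k : ℕ} {x : ℕ × ℕ} :
    x ∈ topPairs k ↔ x.1 = k - 1 ∧ x.2 < k ∧ (x.2 % 2 = 1 ∨ x.2 = k - 1) := by
  obtain ⟨p, q⟩ := x
  simp only [topPairs, List.mem_range, List.mem_map, List.mem_filter,
    decide_eq_true_eq, Prod.mk.injEq]
  constructor
  · rintro ⟨b, ⟨hb, hab⟩, rfl, rfl⟩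
    exact ⟨rfl, hb, hab⟩
  · rintro ⟨rfl, hq, h⟩
    exact ⟨q, ⟨hq, h⟩, rfl, rfl⟩

/-- The last wire may be exchanged with each of the three wires of the clause. -/
def exW (k : ℕ) (c : (Bool × ℕ) × (Bool × ℕ) × (Bool × ℕ)) : List (Bool × ℕ) :=
  swapW (wire c.1) (k - 1) ++ (swapW (wire c.2.1) (k - 1) ++ swapW (wire c.2.2) (k - 1))

/-- The word of a clause. -/
def clauseW (k : ℕ) (c : (Bool × ℕ) × (Bool × ℕ) × (Bool × ℕ)) : List (Bool × ℕ) :=
  exW k c ++ (testsW k (topPairs k) ++ (exW k c ++ testsW k (farPairs k)))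

/-- The word of a formula. -/
def satW (k : ℕ) (φ : List ((Bool × ℕ) × (Bool × ℕ) × (Bool × ℕ))) : List (Bool × ℕ) :=
  testsW k (farPairs k) ++ φ.flatMap (clauseW k)

/-- States with different colours on the first `k` wires, and on the other wires. -/
def Inj (k : ℕ) (s : ℕ → Fin k) : Prop :=
  (∀ p q, p < k → q < k → s p = s q → p = q) ∧
    ∀ p q, p < k → q < k → s (k + p) = s (k + q) → p = q

/-- Each of the first `k` wires has one of its two colours. -/
def Near (k : ℕ) (s : ℕ → Fin k) : Prop :=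
  ∀ p < k, ∃ q < k, q / 2 = p / 2 ∧ s p = s (k + q)

theorem exists_up {k : ℕ} {s : ℕ → Fin k}
    (h : ∀ p q, p < k → q < k → s (k + p) = s (k + q) → p = q) (x : Fin k) :
    ∃ q < k, x = s (k + q) := by
  have hinj : Function.Injective (fun q : Fin k => s (k + q)) := by
    intro a b hab
    exact Fin.ext (h a b a.2 b.2 hab)
  obtain ⟨q, hq⟩ := Finite.surjective_of_injective hinj x
  exact ⟨q, q.2, hq.symm⟩

theorem near_of_tests {k : ℕ} {s : ℕ → Fin k}
    (h : ∀ p q, p < k → q < k → s (k + p) = s (k + q) → p = q)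
    (ht : ∀ x ∈ farPairs k, s x.1 ≠ s (k + x.2)) : Near k s := by
  intro p hp
  obtain ⟨q, hq, h1⟩ := exists_up h (s p)
  refine ⟨q, hq, ?_, h1⟩
  by_contra hne
  exact ht (p, q) (mem_farPairs.2 ⟨hp, hq, hne⟩) h1

theorem tests_of_near {k : ℕ} {s : ℕ → Fin k}
    (h : ∀ p q, p < k → q < k → s (k + p) = s (k + q) → p = q) (hn : Near k s) :
    ∀ x ∈ farPairs k, s x.1 ≠ s (k + x.2) := by
  intro x hx he
  obtain ⟨h1, h2, h3⟩ := mem_farPairs.1 hx
  obtain ⟨q, hq, h4, h5⟩ := hn x.1 h1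
  have := h _ _ hq h2 (h5.symm.trans he)
  subst this
  exact h3 h4

section Clause

variable {k n : ℕ} {c : (Bool × ℕ) × (Bool × ℕ) × (Bool × ℕ)}

/-- the wires of the clause and the last wire -/
def In (k : ℕ) (c : (Bool × ℕ) × (Bool × ℕ) × (Bool × ℕ)) (x : ℕ) : Prop :=
  x = k - 1 ∨ x = wire c.1 ∨ x = wire c.2.1 ∨ x = wire c.2.2

theorem run_ex (hk : k = 2 * n + 1) (h1 : c.1.2 < n) (h2 : c.2.1.2 < n) (h3 : c.2.2.2 < n)
    (s s' : ℕ → Fin k) : Run k (exW k c) s s' ↔
      ∃ s1 s2, (s1 = s ∨ s1 = s ∘ swap (wire c.1) (k - 1)) ∧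
        (s2 = s1 ∨ s2 = s1 ∘ swap (wire c.2.1) (k - 1)) ∧
        (s' = s2 ∨ s' = s2 ∘ swap (wire c.2.2) (k - 1)) := by
  have e1 := wire_div c.1
  have e2 := wire_div c.2.1
  have e3 := wire_div c.2.2
  unfold exW
  simp only [run_append, run_swap (show wire c.1 < k - 1 by omega) (show k - 1 < k by omega),
    run_swap (show wire c.2.1 < k - 1 by omega) (show k - 1 < k by omega),
    run_swap (show wire c.2.2 < k - 1 by omega) (show k - 1 < k by omega)]
  constructor
  · rintro ⟨s1, h1, s2, h2, h3⟩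
    exact ⟨s1, s2, h1, h2, h3⟩
  · rintro ⟨s1, s2, h1, h2, h3⟩
    exact ⟨s1, h1, s2, h2, h3⟩

theorem ex_perm (hk : k = 2 * n + 1) (h1 : c.1.2 < n) (h2 : c.2.1.2 < n) (h3 : c.2.2.2 < n)
    {s s' : ℕ → Fin k} (h : Run k (exW k c) s s') :
    ∃ τ : Perm ℕ, s' = s ∘ τ ∧ ∀ x, ¬ In k c x → τ x = x := by
  rw [run_ex hk h1 h2 h3] at h
  obtain ⟨s1, s2, h1, h2, h3⟩ := h
  have key : ∀ (a : ℕ), In k c a → ∀ (t t' : ℕ → Fin k), (t' = t ∨ t' = t ∘ swap a (k - 1)) →
      ∃ τ : Perm ℕ, t' = t ∘ τ ∧ ∀ x, ¬ In k c x → τ x = x := by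
    rintro a ha t t' (rfl | rfl)
    · exact ⟨1, rfl, fun _ _ => rfl⟩
    · refine ⟨_, rfl, fun x hx => swap_apply_of_ne_of_ne ?_ ?_⟩
      · rintro rfl; exact hx ha
      · rintro rfl; exact hx (Or.inl rfl)
  obtain ⟨τ1, rfl, g1⟩ := key _ (Or.inr (Or.inl rfl)) _ _ h1
  obtain ⟨τ2, rfl, g2⟩ := key _ (Or.inr (Or.inr (Or.inl rfl))) _ _ h2
  obtain ⟨τ3, rfl, g3⟩ := key _ (Or.inr (Or.inr (Or.inr rfl))) _ _ h3
  refine ⟨τ1 * τ2 * τ3, rfl, fun x hx => ?_⟩
  rw [Perm.mul_apply, Perm.mul_apply, g3 x hx, g2 x hx, g1 x hx]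

theorem perm_In {τ : Perm ℕ} (h : ∀ x, ¬ In k c x → τ x = x) {x : ℕ} (hx : In k c x) :
    In k c (τ x) := by
  by_contra hc
  have := h _ hc
  have h2 := τ.injective this
  rw [h2] at hc
  exact hc hx

theorem In_lt (hk : k = 2 * n + 1) (h1 : c.1.2 < n) (h2 : c.2.1.2 < n) (h3 : c.2.2.2 < n)
    {x : ℕ} (hx : In k c x) : x < k := by
  have e1 := wire_div c.1
  have e2 := wire_div c.2.1
  have e3 := wire_div c.2.2
  rcases hx with rfl | rfl | rfl | rfl <;> omega

theorem In_eq (hk : k = 2 * n + 1) (h1 : c.1.2 < n) (h2 : c.2.1.2 < n) (h3 : c.2.2.2 < n)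
    (hd : c.1.2 ≠ c.2.1.2 ∧ c.1.2 ≠ c.2.2.2 ∧ c.2.1.2 ≠ c.2.2.2)
    {x y : ℕ} (hx : In k c x) (hy : In k c y) (h : x / 2 = y / 2) : x = y := by
  have e1 := wire_div c.1
  have e2 := wire_div c.2.1
  have e3 := wire_div c.2.2
  rcases hx with rfl | rfl | rfl | rfl <;> rcases hy with rfl | rfl | rfl | rfl <;> omega

theorem run_clause (hk : k = 2 * n + 1) (h1 : c.1.2 < n) (h2 : c.2.1.2 < n) (h3 : c.2.2.2 < n)
    (hd : c.1.2 ≠ c.2.1.2 ∧ c.1.2 ≠ c.2.2.2 ∧ c.2.1.2 ≠ c.2.2.2)
    {s s' : ℕ → Fin k} (hi : Inj k s) (hn : Near k s) :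
    Run k (clauseW k c) s s' ↔ s' = s ∧ (s (wire c.1) = s (k + 2 * c.1.2) ∨
      s (wire c.2.1) = s (k + 2 * c.2.1.2) ∨ s (wire c.2.2) = s (k + 2 * c.2.2.2)) := by
  have e1 := wire_div c.1
  have e2 := wire_div c.2.1
  have e3 := wire_div c.2.2
  have hup : ∀ q, ¬ In k c (k + q) := by
    intro q hq
    have := In_lt hk h1 h2 h3 hq
    omega
  have ht1 : ∀ x ∈ topPairs k, x.1 < k := by
    intro x hx
    have := (mem_topPairs.1 hx).1
    omega
  have ht2 : ∀ x ∈ farPairs k, x.1 < k := fun x hx => (mem_farPairs.1 hx).1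
  unfold clauseW
  simp only [run_append, run_tests _ ht1, run_tests _ ht2]
  constructor
  · rintro ⟨s1, hr1, _, ⟨rfl, ht⟩, s3, hr2, rfl, hf⟩
    obtain ⟨τ1, rfl, g1⟩ := ex_perm hk h1 h2 h3 hr1
    obtain ⟨τ2, rfl, g2⟩ := ex_perm hk h1 h2 h3 hr2
    constructor
    · -- the state is restored
      have hnear : Near k ((s ∘ τ1) ∘ τ2) := by
        apply near_of_tests _ hf
        intro p q hp hq he
        simp only [Function.comp_apply] at he
        rw [g2 _ (hup p), g2 _ (hup q), g1 _ (hup p), g1 _ (hup q)] at he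
        exact hi.2 p q hp hq he
      have hτ : ∀ x, ¬ In k c x → (τ1 * τ2) x = x := by
        intro x hx
        rw [Perm.mul_apply, g2 x hx, g1 x hx]
      funext x
      by_cases hx : In k c x
      · have hy := perm_In hτ hx
        have hxk := In_lt hk h1 h2 h3 hx
        have hyk := In_lt hk h1 h2 h3 hy
        obtain ⟨q, hq, hq1, hq2⟩ := hnear x hxk
        obtain ⟨q', hq', hq1', hq2'⟩ := hn _ hyk
        have : q = q' := by
          apply hi.2 q q' hq hq'
          simp only [Function.comp_apply] at hq2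
          rw [g2 _ (hup q), g1 _ (hup q)] at hq2
          rw [← hq2, ← hq2']
          rfl
        subst this
        have := In_eq hk h1 h2 h3 hd hy hx (by omega)
        change s ((τ1 * τ2) x) = s x
        rw [this]
      · change s ((τ1 * τ2) x) = s x
        rw [hτ x hx]
    · -- some literal is true
      have hZ : In k c (k - 1) := Or.inl rfl
      have hy := perm_In g1 hZ
      have hyk := In_lt hk h1 h2 h3 hy
      obtain ⟨q, hq, hq1, hq2⟩ := hn _ hyk
      have hq3 : ¬ (q % 2 = 1 ∨ q = k - 1) := by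
        intro hc
        have := ht (k - 1, q) (mem_topPairs.2 ⟨rfl, hq, hc⟩)
        apply this
        simp only [Function.comp_apply]
        rw [hq2, g1 _ (hup q)]
      have key : ∀ l : Bool × ℕ, τ1 (k - 1) = wire l → wire l / 2 = l.2 →
          s (wire l) = s (k + 2 * l.2) := by
        intro l hl hl2
        rw [← hl, hq2]
        congr 2
        rw [← hl2, ← hl]
        omega
      rcases hy with hy | hy | hy | hy
      · exfalso
        rw [hy] at hq1
        omega
      · exact Or.inl (key _ hy e1)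
      · exact Or.inr (Or.inl (key _ hy e2))
      · exact Or.inr (Or.inr (key _ hy e3))
  · rintro ⟨rfl, hl⟩
    have key : ∀ l : Bool × ℕ, l.2 < n → In k c (wire l) → s' (wire l) = s' (k + 2 * l.2) →
        Run k (exW k c) s' (s' ∘ swap (wire l) (k - 1)) →
        Run k (exW k c) (s' ∘ swap (wire l) (k - 1))
          ((s' ∘ swap (wire l) (k - 1)) ∘ swap (wire l) (k - 1)) →
        ∃ m, Run k (exW k c) s' m ∧ ∃ m_1, (m_1 = m ∧ ∀ x ∈ topPairs k, m x.1 ≠ m (k + x.2)) ∧
          ∃ m, Run k (exW k c) m_1 m ∧ s' = m ∧ ∀ x ∈ farPairs k, m x.1 ≠ m (k + x.2) := by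
      intro l hln hlI hl hr1 hr2
      have he : (s' ∘ swap (wire l) (k - 1)) ∘ swap (wire l) (k - 1) = s' := by
        funext x
        simp
      refine ⟨_, hr1, _, ⟨rfl, ?_⟩, s', ?_, rfl, tests_of_near hi.2 hn⟩
      · intro x hx hc
        obtain ⟨hx1, hx2, hx3⟩ := mem_topPairs.1 hx
        rw [hx1] at hc
        have hf : swap (wire l) (k - 1) (k + x.2) = k + x.2 := by
          have := In_lt hk h1 h2 h3 hlI
          exact swap_apply_of_ne_of_ne (by omega) (by omega)
        simp only [Function.comp_apply, swap_apply_right] at hc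
        rw [hf, hl] at hc
        have := hi.2 _ _ (by omega) hx2 hc
        omega
      · rw [he] at hr2
        exact hr2
    rcases hl with hl | hl | hl
    · refine key c.1 h1 (Or.inr (Or.inl rfl)) hl ?_ ?_
      · exact (run_ex hk h1 h2 h3 _ _).2 ⟨_, _, Or.inr rfl, Or.inl rfl, Or.inl rfl⟩
      · exact (run_ex hk h1 h2 h3 _ _).2 ⟨_, _, Or.inr rfl, Or.inl rfl, Or.inl rfl⟩
    · refine key c.2.1 h2 (Or.inr (Or.inr (Or.inl rfl))) hl ?_ ?_
      · exact (run_ex hk h1 h2 h3 _ _).2 ⟨_, _, Or.inl rfl, Or.inr rfl, Or.inl rfl⟩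
      · exact (run_ex hk h1 h2 h3 _ _).2 ⟨_, _, Or.inl rfl, Or.inr rfl, Or.inl rfl⟩
    · refine key c.2.2 h3 (Or.inr (Or.inr (Or.inr rfl))) hl ?_ ?_
      · exact (run_ex hk h1 h2 h3 _ _).2 ⟨_, _, Or.inl rfl, Or.inl rfl, Or.inr rfl⟩
      · exact (run_ex hk h1 h2 h3 _ _).2 ⟨_, _, Or.inl rfl, Or.inl rfl, Or.inr rfl⟩

end Clause

theorem run_clauses {k n : ℕ} (hk : k = 2 * n + 1) :
    ∀ (φ : List ((Bool × ℕ) × (Bool × ℕ) × (Bool × ℕ)))
      (_ : ∀ c ∈ φ, c.1.2 < n ∧ c.2.1.2 < n ∧ c.2.2.2 < n) (_ : Distinct3 φ)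
      {s s' : ℕ → Fin k} (_ : Inj k s) (_ : Near k s),
      Run k (φ.flatMap (clauseW k)) s s' ↔ s' = s ∧ ∀ c ∈ φ, (s (wire c.1) = s (k + 2 * c.1.2) ∨
        s (wire c.2.1) = s (k + 2 * c.2.1.2) ∨ s (wire c.2.2) = s (k + 2 * c.2.2.2))
  | [], _, _, s, s', _, _ => by simp [Run]
  | c :: φ, hb, hd, s, s', hi, hn => by
    have ih := fun s' => run_clauses hk φ (fun c hc => hb c (List.mem_cons_of_mem _ hc))
      (fun c hc => hd c (List.mem_cons_of_mem _ hc)) (s := s) (s' := s') hi hn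
    obtain ⟨h1, h2, h3⟩ := hb c List.mem_cons_self
    rw [List.flatMap_cons, run_append]
    simp only [run_clause hk h1 h2 h3 (hd c List.mem_cons_self) hi hn, List.forall_mem_cons]
    constructor
    · rintro ⟨m, ⟨rfl, g1⟩, g2⟩
      obtain ⟨g3, g4⟩ := (ih s').1 g2
      exact ⟨g3, g1, g4⟩
    · rintro ⟨g3, g1, g4⟩
      exact ⟨s, ⟨rfl, g1⟩, (ih s').2 ⟨g3, g4⟩⟩

/-- **The word of a formula has a run iff the formula is satisfiable.** -/
theorem sat_word {k n : ℕ} (hk : k = 2 * n + 1)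
    (φ : List ((Bool × ℕ) × (Bool × ℕ) × (Bool × ℕ)))
    (hb : ∀ c ∈ φ, c.1.2 < n ∧ c.2.1.2 < n ∧ c.2.2.2 < n) (hd : Distinct3 φ) :
    (∃ s s' : ℕ → Fin k, Inj k s ∧ Run k (satW k φ) s s') ↔ SAT3 φ := by
  have ht2 : ∀ x ∈ farPairs k, x.1 < k := fun x hx => (mem_farPairs.1 hx).1
  constructor
  · rintro ⟨s, s', hi, hr⟩
    unfold satW at hr
    rw [run_append] at hr
    obtain ⟨m, hm, hr⟩ := hr
    rw [run_tests _ ht2] at hm
    obtain ⟨rfl, ht⟩ := hm
    have hn := near_of_tests hi.2 ht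
    rw [run_clauses hk φ hb hd hi hn] at hr
    obtain ⟨_, hφ⟩ := hr
    refine ⟨fun v => decide (m (2 * v) = m (k + 2 * v)), fun c hc => ?_⟩
    obtain ⟨h1, h2, h3⟩ := hb c hc
    have key : ∀ l : Bool × ℕ, l.2 < n → m (wire l) = m (k + 2 * l.2) →
        decide (m (2 * l.2) = m (k + 2 * l.2)) = l.1 := by
      rintro ⟨b, v⟩ hv h
      cases b
      · simp only [wire, Bool.false_eq_true, if_false] at h
        simp only [decide_eq_false_iff_not]
        intro hc
        have := hi.1 _ _ (by simp only at hv; omega) (by simp only at hv; omega) (h.trans hc.symm)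
        omega
      · simp only [wire, if_true, add_zero] at h
        simpa using h
    rcases hφ c hc with h | h | h
    · exact Or.inl (key _ h1 h)
    · exact Or.inr (Or.inl (key _ h2 h))
    · exact Or.inr (Or.inr (key _ h3 h))
  · rintro ⟨τ, hτ⟩
    have hk0 : 0 < k := by omega
    let f : ℕ → ℕ := fun x => if x < 2 * n then
      (if τ (x / 2) = true then x else if x % 2 = 0 then x + 1 else x - 1)
      else if x < k then x else x - k
    have hf : ∀ x < 2 * k, f x < k := by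
      intro x hx
      simp only [f]
      split_ifs <;> omega
    let s : ℕ → Fin k := fun x => if h : x < 2 * k then ⟨f x, hf x h⟩ else ⟨0, hk0⟩
    have hs : ∀ x < 2 * k, (s x : ℕ) = f x := by
      intro x hx
      simp only [s, dif_pos hx]
    have hup : ∀ q < k, f (k + q) = q := by
      intro q hq
      simp only [f]
      rw [if_neg (by omega), if_neg (by omega)]
      omega
    have hdiv : ∀ p < k, f p / 2 = p / 2 := by
      intro p hp
      simp only [f]
      split_ifs <;> omega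
    have hi : Inj k s := by
      constructor
      · intro p q hp hq h
        have h' := congrArg Fin.val h
        rw [hs p (by omega), hs q (by omega)] at h'
        have h1 := hdiv p hp
        have h2 := hdiv q hq
        have h3 : p / 2 = q / 2 := by rw [← h1, ← h2, h']
        simp only [f] at h'
        rw [h3] at h'
        split_ifs at h' <;> omega
      · intro p q hp hq h
        have h' := congrArg Fin.val h
        rw [hs _ (by omega), hs _ (by omega), hup p hp, hup q hq] at h'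
        exact h'
    have hn : Near k s := by
      intro p hp
      refine ⟨f p, hf p (by omega), hdiv p hp, ?_⟩
      apply Fin.ext
      rw [hs p (by omega), hs _ (by have := hf p (by omega); omega), hup _ (hf p (by omega))]
    refine ⟨s, s, hi, ?_⟩
    unfold satW
    rw [run_append]
    refine ⟨s, (run_tests _ ht2 _ _).2 ⟨rfl, tests_of_near hi.2 hn⟩, ?_⟩
    rw [run_clauses hk φ hb hd hi hn]
    refine ⟨rfl, fun c hc => ?_⟩
    obtain ⟨h1, h2, h3⟩ := hb c hc
    have key : ∀ l : Bool × ℕ, l.2 < n → τ l.2 = l.1 → s (wire l) = s (k + 2 * l.2) := by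
      rintro ⟨b, v⟩ hv h
      simp only at hv h
      apply Fin.ext
      have hw : wire (b, v) < 2 * n := by
        have := wire_div (b, v)
        simp only at this
        omega
      rw [hs _ (by omega), hs _ (by simp only; omega), hup _ (by simp only; omega)]
      simp only [f]
      rw [if_pos hw, wire_div]
      cases b
      · simp only [h, wire, Bool.false_eq_true, if_false]
        rw [if_neg (by omega)]
        omega
      · simp only [h, wire, if_true]
        omega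
    rcases hτ c hc with h | h | h
    · exact Or.inl (key _ h1 h)
    · exact Or.inr (Or.inl (key _ h2 h))
    · exact Or.inr (Or.inr (key _ h3 h))

theorem valid_satW {k n : ℕ} (hk : k = 2 * n + 1)
    (φ : List ((Bool × ℕ) × (Bool × ℕ) × (Bool × ℕ)))
    (hb : ∀ c ∈ φ, c.1.2 < n ∧ c.2.1.2 < n ∧ c.2.2.2 < n) : Valid k (satW k φ) := by
  have hfar : Valid k (testsW k (farPairs k)) := valid_tests fun x hx =>
    ⟨(mem_farPairs.1 hx).1, (mem_farPairs.1 hx).2.1⟩
  have htop : Valid k (testsW k (topPairs k)) := valid_tests fun x hx =>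
    ⟨by have := (mem_topPairs.1 hx).1; omega, (mem_topPairs.1 hx).2.1⟩
  refine hfar.append (valid_flatMap fun c hc => ?_)
  obtain ⟨h1, h2, h3⟩ := hb c hc
  have e1 := wire_div c.1
  have e2 := wire_div c.2.1
  have e3 := wire_div c.2.2
  have hex : Valid k (exW k c) :=
    (valid_swap (by omega) (by omega)).append
      ((valid_swap (by omega) (by omega)).append (valid_swap (by omega) (by omega)))
  exact hex.append (htop.append (hex.append hfar))

end Pool.Agent.H675.DCD
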